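import Pool.Agent.V7H52.GM.I

/-!
Products of shifts, and mollifiers.
-/

set_option autoImplicit false
set_option maxHeartbeats 4000000
open MeasureTheory Filter Topology Set Real

namespace Pool.Agent.V7H52.GM

open Pool.Agent.V7H88.BS H370 Pool.Agent.H983R4.LH

section

variable {ι : Type} [Fintype ι]

/-- the discrete measure with the weights `w j / W` at the points `z j` -/
noncomputable def ρd (z : ι → ℂ) (w : ι → ℝ) : Measure ℂ :=
  ∑ j, ENNReal.ofReal (w j / ∑ i, w i) • Measure.dirac (z j)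

lemma ρd_prob (z : ι → ℂ) {w : ι → ℝ} (hw : ∀ j, 0 < w j) (hW : 0 < ∑ i, w i) :
    IsProbabilityMeasure (ρd z w) := by
  constructor
  unfold ρd
  rw [Measure.coe_finsetSum, Finset.sum_apply]
  simp only [Measure.smul_apply, measure_univ, smul_eq_mul, mul_one]
  rw [← ENNReal.ofReal_sum_of_nonneg (fun j _ => by have := hw j; positivity), ← Finset.sum_div,
    div_self hW.ne', ENNReal.ofReal_one]

lemma ρd_car {z : ι → ℂ} {w : ι → ℝ} {R : ℝ} (hz : ∀ j, 0 ≤ (z j).re ∧ ‖z j‖ ≤ R) : Car (ρd z w) R := by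
  unfold Car
  have hm : MeasurableSet {x : ℂ | ¬ (0 ≤ x.re ∧ ‖x‖ ≤ R)} := (car_compact R).measurableSet.compl
  rw [ae_iff]
  unfold ρd
  rw [Measure.coe_finsetSum, Finset.sum_apply]
  refine Finset.sum_eq_zero fun j _ => ?_
  rw [Measure.smul_apply, Measure.dirac_apply' _ hm, indicator_of_notMem (by
    simp only [mem_ofPred_eq, not_not]
    exact hz j)]
  simp

lemma ρd_pos {z : ι → ℂ} {w : ι → ℝ} (hw : ∀ j, 0 < w j) (hW : 0 < ∑ i, w i) (h0 : ∃ j, (z j).re = 0)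
    (δ : ℝ) (hδ : 0 < δ) : 0 < ρd z w {x : ℂ | x.re < δ} := by
  obtain ⟨j, hj⟩ := h0
  have hm : MeasurableSet {z : ℂ | z.re < δ} :=
    (isOpen_lt Complex.continuous_re continuous_const).measurableSet
  unfold ρd
  rw [Measure.coe_finsetSum, Finset.sum_apply]
  refine lt_of_lt_of_le ?_ (Finset.single_le_sum (f := fun j =>
    (ENNReal.ofReal (w j / ∑ i, w i) • Measure.dirac (z j)) {x : ℂ | x.re < δ}) (fun i _ => bot_le)
    (Finset.mem_univ j))
  rw [Measure.smul_apply, Measure.dirac_apply' _ hm, indicator_of_mem (by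
    show (z j).re < δ
    rw [hj]; exact hδ)]
  simp only [Pi.one_apply, smul_eq_mul, mul_one]
  exact ENNReal.ofReal_pos.2 (div_pos (hw j) hW)

lemma ρd_LM {z : ι → ℂ} {w : ι → ℝ} (hw : ∀ j, 0 < w j) (hW : 0 < ∑ i, w i) (f : ℂ → ℂ) (M t : ℝ) :
    LM (ρd z w) f M t = (∑ i, w i)⁻¹ * ∑ j, w j * Real.log (max ‖f (1 / 2 + t * Complex.I + z j)‖ (Real.exp (-M))) := by
  unfold LM ρd
  rw [integral_finsetSum_measure (fun j _ => ?_)]
  · rw [Finset.mul_sum]
    refine Finset.sum_congr rfl fun j _ => ?_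
    rw [integral_smul_measure, integral_dirac, ENNReal.toReal_ofReal (by have := hw j; positivity), smul_eq_mul]
    ring
  · refine Integrable.smul_measure ?_ ENNReal.ofReal_ne_top
    exact integrable_dirac (by simp)

/-- **products of shifts** -/
theorem crit_shift [Nonempty ι] (P : Polynomial ℂ) (hP : P ≠ 0) (a : ℂ) {z : ι → ℂ} {w : ι → ℝ} (hw : ∀ j, 0 < w j)
    (hz : ∀ j, 0 ≤ (z j).re) (h0 : ∃ j, (z j).re = 0) :
    Pool.Agent.TH804.MS.Exponent 0 ↔ ∀ ε : ℝ, 0 < ε → ∃ T₀ : ℝ, ∀ t : ℝ, T₀ ≤ t →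
      ∏ j, ‖ff P a (1 / 2 + t * Complex.I + z j)‖ ^ (w j) ≤ t ^ ε := by
  have hW : 0 < ∑ i, w i := Finset.sum_pos (fun j _ => hw j) Finset.univ_nonempty
  set W : ℝ := ∑ i, w i with hWd
  set R : ℝ := ∑ j, ‖z j‖ with hR
  have hR0 : 0 ≤ R := Finset.sum_nonneg fun j _ => norm_nonneg _
  have hzR : ∀ j, ‖z j‖ ≤ R := fun j =>
    Finset.single_le_sum (f := fun j => ‖z j‖) (fun i _ => norm_nonneg _) (Finset.mem_univ j)
  have := ρd_prob z hw hW
  constructor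
  · intro hL ε hε
    have hev := PD_small P a hL (ε := ε / W) (R := R) (by positivity) hR0
    obtain ⟨T₁, hT₁⟩ := eventually_atTop.1 (hev.and (eventually_ge_atTop 1))
    refine ⟨T₁, fun t ht => ?_⟩
    obtain ⟨h1, h2⟩ := hT₁ t ht
    have ht0 : 0 < t := by linarith
    calc ∏ j, ‖ff P a (1 / 2 + t * Complex.I + z j)‖ ^ (w j) ≤ ∏ j, (t ^ (ε / W)) ^ (w j) := by
          refine Finset.prod_le_prod (fun j _ => by positivity) fun j _ => ?_
          refine Real.rpow_le_rpow (norm_nonneg _) ?_ (hw j).le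
          refine h1 _ (by rw [re_shift]; linarith [hz j]) ?_
          rw [im_shift, add_sub_cancel_left]
          exact (Complex.abs_im_le_norm _).trans (hzR j)
      _ = ∏ j, t ^ (ε / W * w j) := by
          refine Finset.prod_congr rfl fun j _ => ?_
          rw [← Real.rpow_mul ht0.le]
      _ = t ^ ε := by
          rw [← Real.rpow_sum_of_pos ht0, ← Finset.mul_sum, ← hWd, div_mul_cancel₀ _ hW.ne']
  · intro hI
    refine crit_meas P hP a hR0 (ρd_car (w := w) fun j => ⟨hz j, hzR j⟩) (ρd_pos hw hW h0) fun ε hε => ?_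
    obtain ⟨T₀, hT₀⟩ := hI (ε * W) (by positivity)
    apply tendsto_const_nhds.congr'
    filter_upwards [eventually_ge_atTop T₀, eventually_ge_atTop 1] with T h1 h2
    symm
    have : {t : ℝ | T ≤ t ∧ t ≤ T + 1 ∧ t ^ ε < GMn (ρd z w) (fun s => (PD P riemannZeta s - a) * 1) t} = ∅ := by
      rw [eq_empty_iff_forall_notMem]
      rintro t ⟨h3, h4, h5⟩
      have ht1 : 1 ≤ t := by linarith
      have ht0 : 0 < t := by linarith
      apply absurd h5
      rw [not_lt]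
      have hfe : ∀ j, (PD P riemannZeta (1 / 2 + t * Complex.I + z j) - a) * 1 = ff P a (1 / 2 + t * Complex.I + z j) :=
        fun j => mul_one _
      have hGnn : 0 ≤ GMn (ρd z w) (fun s => (PD P riemannZeta s - a) * 1) t := le_GMn fun n => (Real.exp_pos _).le
      have h6 : ∀ n : ℕ, GMn (ρd z w) (fun s => (PD P riemannZeta s - a) * 1) t ^ W ≤
          ∏ j, (max ‖ff P a (1 / 2 + t * Complex.I + z j)‖ (Real.exp (-(n : ℝ)))) ^ (w j) := by
        intro n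
        have h7 := Real.rpow_le_rpow hGnn (GMn_le (ρ := ρd z w)
          (f := fun s => (PD P riemannZeta s - a) * 1) (t := t) n) hW.le
        refine h7.trans (le_of_eq ?_)
        rw [ρd_LM hw hW, ← Real.exp_mul]
        have e : (W)⁻¹ * (∑ j, w j * Real.log (max ‖(PD P riemannZeta (1 / 2 + t * Complex.I + z j) - a) * 1‖
            (Real.exp (-(n : ℝ))))) * W =
            ∑ j, w j * Real.log (max ‖ff P a (1 / 2 + t * Complex.I + z j)‖ (Real.exp (-(n : ℝ)))) := by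
          simp only [hfe]
          field_simp
        rw [e, Real.exp_sum]
        refine Finset.prod_congr rfl fun j _ => ?_
        rw [Real.rpow_def_of_pos (lt_max_of_lt_right (Real.exp_pos _)), mul_comm]
      have h7 : Tendsto (fun n : ℕ => ∏ j, (max ‖ff P a (1 / 2 + t * Complex.I + z j)‖ (Real.exp (-(n : ℝ)))) ^ (w j))
          atTop (𝓝 (∏ j, ‖ff P a (1 / 2 + t * Complex.I + z j)‖ ^ (w j))) := by
        refine tendsto_finsetProd _ fun j _ => ?_
        have h8 : Tendsto (fun n : ℕ => Real.exp (-(n : ℝ))) atTop (𝓝 0) :=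
          Real.tendsto_exp_neg_atTop_nhds_zero.comp tendsto_natCast_atTop_atTop
        have h9 : Tendsto (fun n : ℕ => max ‖ff P a (1 / 2 + t * Complex.I + z j)‖ (Real.exp (-(n : ℝ)))) atTop
            (𝓝 (max ‖ff P a (1 / 2 + t * Complex.I + z j)‖ 0)) := tendsto_const_nhds.max h8
        rw [max_eq_left (norm_nonneg _)] at h9
        exact h9.rpow_const (Or.inr (hw j).le)
      have h8 : GMn (ρd z w) (fun s => (PD P riemannZeta s - a) * 1) t ^ W ≤ t ^ (ε * W) :=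
        (ge_of_tendsto h7 (Eventually.of_forall h6)).trans (hT₀ t (by linarith))
      rw [Real.rpow_mul ht0.le] at h8
      exact (Real.rpow_le_rpow_iff hGnn (by positivity) hW).1 h8
    rw [this, measure_empty]

end

/-! ### mollifiers -/

/-- a Dirichlet polynomial -/
noncomputable def DP (N : ℕ) (c : ℕ → ℂ) (s : ℂ) : ℂ := ∑ n ∈ Finset.Icc 1 N, c n * (n : ℂ) ^ (-s)

lemma DP_an (N : ℕ) (c : ℕ → ℂ) (s : ℂ) : AnalyticAt ℂ (DP N c) s := by
  unfold DP
  refine Finset.analyticAt_fun_sum _ fun n hn => ?_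
  have hn0 : (n : ℂ) ≠ 0 := by
    have := (Finset.mem_Icc.1 hn).1
    exact_mod_cast (by omega : n ≠ 0)
  have hd : Differentiable ℂ fun s : ℂ => c n * (n : ℂ) ^ (-s) := by
    intro s
    exact ((differentiableAt_id.neg).const_cpow (Or.inl hn0)).const_mul _
  exact hd.analyticAt s

lemma DP_up {N : ℕ} {c : ℕ → ℂ} {B T : ℝ} (hB : 0 ≤ B) (hT : 1 ≤ T) (hN : (N : ℝ) ≤ T ^ B)
    (hc : ∀ n, ‖c n‖ ≤ (n : ℝ) ^ B) {s : ℂ} (hs : 1 / 2 ≤ s.re) :
    ‖DP N c s‖ ≤ (T + ‖s‖) ^ (B * (B + 1)) := by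
  have hT0 : 0 < T := by linarith
  have h1 : ∀ n ∈ Finset.Icc 1 N, ‖c n * (n : ℂ) ^ (-s)‖ ≤ (N : ℝ) ^ B := by
    intro n hn
    have hn' := Finset.mem_Icc.1 hn
    have hn1 : (1:ℝ) ≤ n := by exact_mod_cast hn'.1
    have hn0 : (0:ℝ) < n := by linarith
    have h2 : ‖(n : ℂ) ^ (-s)‖ ≤ 1 := by
      have e : ((n : ℂ)) = (((n : ℝ)) : ℂ) := by push_cast; rfl
      rw [e, Complex.norm_cpow_eq_rpow_re_of_pos hn0, Complex.neg_re]
      exact Real.rpow_le_one_of_one_le_of_nonpos hn1 (by linarith)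
    have h3 : (n : ℝ) ^ B ≤ (N : ℝ) ^ B := Real.rpow_le_rpow hn0.le (by exact_mod_cast hn'.2) hB
    rw [norm_mul]
    calc ‖c n‖ * ‖(n : ℂ) ^ (-s)‖ ≤ (n : ℝ) ^ B * 1 := mul_le_mul (hc n) h2 (norm_nonneg _) (by positivity)
      _ ≤ (N : ℝ) ^ B := by rw [mul_one]; exact h3
  have h2 : ‖DP N c s‖ ≤ N * (N : ℝ) ^ B := by
    unfold DP
    refine (norm_sum_le _ _).trans ((Finset.sum_le_sum h1).trans ?_)
    rw [Finset.sum_const, Nat.card_Icc, nsmul_eq_mul]
    simp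
  have hNn : (0:ℝ) ≤ N := Nat.cast_nonneg N
  calc ‖DP N c s‖ ≤ N * (N : ℝ) ^ B := h2
    _ ≤ T ^ B * (T ^ B) ^ B := by gcongr
    _ = T ^ (B * (B + 1)) := by
        rw [← Real.rpow_mul hT0.le, ← Real.rpow_add hT0]; congr 1; ring
    _ ≤ (T + ‖s‖) ^ (B * (B + 1)) := by
        refine Real.rpow_le_rpow hT0.le (by linarith [norm_nonneg s]) (by positivity)

lemma cube_sum (N : ℕ) : ∑ n ∈ Finset.Icc 2 N, ((n : ℝ) ^ 3)⁻¹ ≤ 1 / 2 := by
  rcases Nat.lt_or_ge N 1 with h | h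
  · have : Finset.Icc 2 N = ∅ := by
      rw [Finset.Icc_eq_empty]; omega
    rw [this]
    norm_num
  have key : ∀ N : ℕ, 1 ≤ N → ∑ n ∈ Finset.Icc 2 N, ((n : ℝ) ^ 3)⁻¹ ≤ 1 / 2 - 1 / (2 * N) := by
    intro N hN
    induction N, hN using Nat.le_induction with
    | base => norm_num
    | succ n hn ih =>
      have e : Finset.Icc 2 (n + 1) = insert (n + 1) (Finset.Icc 2 n) := by
        ext x
        simp only [Finset.mem_Icc, Finset.mem_insert]
        omega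
      rw [e, Finset.sum_insert (by simp)]
      have hn1 : (1:ℝ) ≤ n := by exact_mod_cast hn
      have h1 : (((n + 1 : ℕ) : ℝ) ^ 3)⁻¹ ≤ 1 / (2 * n) - 1 / (2 * ((n + 1 : ℕ) : ℝ)) := by
        push_cast
        rw [div_sub_div _ _ (by positivity) (by positivity), inv_eq_one_div, div_le_div_iff₀ (by positivity) (by positivity)]
        nlinarith [mul_pos (show (0:ℝ) < n by linarith) (show (0:ℝ) < n by linarith)]
      linarith
  refine (key N h).trans ?_
  have : (0:ℝ) ≤ 1 / (2 * N) := by positivity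
  linarith

lemma DP_low {N : ℕ} {c : ℕ → ℂ} {B : ℝ} (hN : 1 ≤ N) (hc1 : c 1 = 1)
    (hc : ∀ n, ‖c n‖ ≤ (n : ℝ) ^ B) {s : ℂ} (hs : B + 3 ≤ s.re) : 1 / 2 ≤ ‖DP N c s‖ := by
  have e : Finset.Icc 1 N = insert 1 (Finset.Icc 2 N) := by
    ext x
    simp only [Finset.mem_Icc, Finset.mem_insert]
    omega
  have h1 : DP N c s = 1 + ∑ n ∈ Finset.Icc 2 N, c n * (n : ℂ) ^ (-s) := by
    unfold DP
    rw [e, Finset.sum_insert (by simp), hc1]
    simp
  have h2 : ‖∑ n ∈ Finset.Icc 2 N, c n * (n : ℂ) ^ (-s)‖ ≤ 1 / 2 := by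
    refine (norm_sum_le _ _).trans (le_trans (Finset.sum_le_sum fun n hn => ?_) (cube_sum N))
    have hn2 := (Finset.mem_Icc.1 hn).1
    have hn1 : (1:ℝ) ≤ n := by exact_mod_cast (by omega : 1 ≤ n)
    have hn0 : (0:ℝ) < n := by linarith
    have e2 : ((n : ℂ)) = (((n : ℝ)) : ℂ) := by push_cast; rfl
    rw [norm_mul, e2, Complex.norm_cpow_eq_rpow_re_of_pos hn0, Complex.neg_re]
    calc ‖c n‖ * (n : ℝ) ^ (-s.re) ≤ (n : ℝ) ^ B * (n : ℝ) ^ (-(B + 3)) := by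
          refine mul_le_mul (hc n) ?_ (by positivity) (by positivity)
          exact Real.rpow_le_rpow_of_exponent_le hn1 (by linarith)
      _ = (n : ℝ) ^ (-(3:ℝ)) := by rw [← Real.rpow_add hn0]; congr 1; ring
      _ = ((n : ℝ) ^ 3)⁻¹ := by
          rw [Real.rpow_neg hn0.le]
          congr 1
          exact_mod_cast Real.rpow_natCast (n : ℝ) 3
  have h3 : ‖(1 : ℂ)‖ ≤ ‖DP N c s‖ + ‖∑ n ∈ Finset.Icc 2 N, c n * (n : ℂ) ^ (-s)‖ := by
    have : (1 : ℂ) = DP N c s - ∑ n ∈ Finset.Icc 2 N, c n * (n : ℂ) ^ (-s) := by rw [h1]; ring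
    nth_rewrite 1 [this]
    exact norm_sub_le _ _
  rw [norm_one] at h3
  linarith

/-- **no mollifier of polynomial length** -/
theorem no_mollifier (P : Polynomial ℂ) (hP : P ≠ 0) (a₀ : ℂ) {ρ : Measure ℂ} [IsProbabilityMeasure ρ] {R : ℝ}
    (hR : 0 ≤ R) (hρ : Car ρ R) (hδ : ∀ δ : ℝ, 0 < δ → 0 < ρ {z : ℂ | z.re < δ}) {κ B : ℝ}
    (hκ : 0 < κ) (hB : 0 ≤ B) :
    ∃ η H : ℝ, 0 < η ∧ 0 < H ∧ ∀ᶠ T : ℝ in atTop, T ^ κ ≤ ‖riemannZeta ⟨1 / 2, T⟩‖ →
      ∀ (N : ℕ) (c : ℕ → ℂ), 1 ≤ N → (N : ℝ) ≤ T ^ B → c 1 = 1 → (∀ n, ‖c n‖ ≤ (n : ℝ) ^ B) →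
        ENNReal.ofReal η ≤ volume {t : ℝ | |t - T| ≤ H ∧
          T ^ η ≤ GMn ρ (fun s => (PD P riemannZeta s - a₀) * DP N c s) t} := by
  obtain ⟨η, H, hη, hH, hev⟩ := local_GM P hP a₀ hR hρ hδ (κ := κ) (B := B * (B + 1)) (B + 3) hκ (by positivity)
  refine ⟨η, H, hη, hH, ?_⟩
  filter_upwards [hev, eventually_ge_atTop 1, ev_rpow 2 hη] with T h1 hT h2 hbig N c hN1 hN hc1 hc
  refine h1 hbig (DP N c) ⟨fun s _ => DP_an N c s, fun s hs => DP_up hB hT hN hc hs, fun s hs _ => ?_⟩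
  refine le_trans ?_ (DP_low hN1 hc1 hc hs)
  rw [Real.rpow_neg (by linarith), inv_eq_one_div]
  exact one_div_le_one_div_of_le (by norm_num) h2

end Pool.Agent.V7H52.GM
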