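import Pool.Agent.H983R4.GL.F1
import Pool.Agent.H370R2.Local

/-!
The Poisson-Jensen inequality in the half plane `Re s > 1/2`, with zeros.
-/

set_option autoImplicit false
open MeasureTheory Filter Topology Set Real

namespace Pool.Agent.V7H52.GM

open Pool.Agent.H983R4.LH Pool.Agent.H983R4.GL H370 H370.Loc

/-- Jensen's formula as an inequality for the mean of `log⁺ |f|` on a circle -/
lemma jensen_avg {f : ℂ → ℂ} {c : ℂ} {r R : ℝ} (hr : 0 < r) (hrR : r ≤ R)
    (hf : AnalyticOnNhd ℂ f (Metric.closedBall c R)) (hc : f c ≠ 0)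
    (S : Finset ℂ) (hS : ∀ z ∈ S, z ∈ Metric.closedBall c r) :
    Real.log ‖f c‖ + (∑ z ∈ S, (mult f z : ℝ)) * Real.log (R / r) ≤
      circleAverage (fun z => log⁺ ‖f z‖) c R := by
  have hR : 0 < R := lt_of_lt_of_le hr hrR
  have hR' : |R| = R := abs_of_pos hR
  have hm : MeromorphicOn f (Metric.sphere c |R|) := by
    rw [hR']
    exact (hf.mono Metric.sphere_subset_closedBall).meromorphicOn
  have hK : IsPreconnected (Metric.closedBall c R) := (convex_closedBall c R).isPreconnected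
  have hcR : c ∈ Metric.closedBall c R := Metric.mem_closedBall_self hR.le
  have h1 := AnalyticOnNhd.circleAverage_log_norm hR.ne' (by rw [hR']; exact hf) hc
  have hlog : 0 ≤ Real.log (R / r) := Real.log_nonneg (by rw [le_div_iff₀ hr]; linarith)
  rw [hR'] at h1
  have hnn : ∀ u, 0 ≤ (MeromorphicOn.divisor f (Metric.closedBall c R) u : ℝ) * Real.log (R * ‖c - u‖⁻¹) := by
    intro u
    by_cases hu : u ∈ Metric.closedBall c R
    · refine mul_nonneg ?_ ?_
      · rw [divisor_eq hK hf hcR hc hu]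
        positivity
      · by_cases huc : u = c
        · simp [huc]
        · have hpos : 0 < ‖c - u‖ := by
            rw [norm_pos_iff, sub_ne_zero]
            exact fun h => huc h.symm
          refine Real.log_nonneg ?_
          rw [Metric.mem_closedBall, dist_comm, dist_eq_norm] at hu
          rw [← div_eq_mul_inv, le_div_iff₀ hpos, one_mul]
          exact hu
    · rw [Function.locallyFinsuppWithin.apply_eq_zero_of_notMem _ hu]
      simp
  have hfin : (Function.support (MeromorphicOn.divisor f (Metric.closedBall c R))).Finite :=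
    (MeromorphicOn.divisor f (Metric.closedBall c R)).finiteSupport (isCompact_closedBall c R)
  have h2 : (∑ z ∈ S, (mult f z : ℝ)) * Real.log (R / r) ≤
      ∑ᶠ u, (MeromorphicOn.divisor f (Metric.closedBall c R) u : ℝ) * Real.log (R * ‖c - u‖⁻¹) := by
    rw [finsum_eq_sum_of_support_subset (s := hfin.toFinset ∪ S) _ (by
      intro x hx
      simp only [Finset.coe_union, Set.Finite.coe_toFinset, mem_union]
      left
      rw [Function.mem_support] at hx ⊢
      intro h0
      rw [h0] at hx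
      simp at hx)]
    refine le_trans ?_ (Finset.sum_le_sum_of_subset_of_nonneg Finset.subset_union_right fun u _ _ => hnn u)
    rw [Finset.sum_mul]
    refine Finset.sum_le_sum fun z hz => ?_
    have hz' := hS z hz
    have hzR : z ∈ Metric.closedBall c R := Metric.closedBall_subset_closedBall hrR hz'
    rw [divisor_eq hK hf hcR hc hzR]
    by_cases hzc : z = c
    · have h0 : mult f z = 0 := by
        have := (mult_pos hK hf hcR hc hzR)
        rw [hzc] at this ⊢
        by_contra hcon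
        exact hc (this.1 (Nat.pos_of_ne_zero hcon))
      rw [h0]
      simp
    · have hpos : 0 < ‖c - z‖ := by
        rw [norm_pos_iff, sub_ne_zero]
        exact fun h => hzc h.symm
      have hle : ‖c - z‖ ≤ r := by
        rw [Metric.mem_closedBall, dist_comm, dist_eq_norm] at hz'
        exact hz'
      have h3 : Real.log (R / r) ≤ Real.log (R * ‖c - z‖⁻¹) := by
        apply Real.log_le_log (by positivity)
        rw [← div_eq_mul_inv]
        exact div_le_div_of_nonneg_left hR.le hpos hle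
      have h4 : (0:ℝ) ≤ (mult f z : ℝ) := Nat.cast_nonneg _
      push_cast
      exact mul_le_mul_of_nonneg_left h3 h4
  have h3 : circleAverage (fun z => Real.log ‖f z‖) c R ≤
      circleAverage (fun z => log⁺ ‖f z‖) c R :=
    circleAverage_mono hm.circleIntegrable_log_norm hm.circleIntegrable_posLog_norm
      (fun x _ => le_max_right _ _)
  linarith

/-- the inverse of the conformal map -/
noncomputable def Pinv (a t : ℝ) (s : ℂ) : ℂ :=
  (s - 1 / 2 - t * Complex.I - a) / (s - 1 / 2 - t * Complex.I + a)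

lemma P_Pinv {a t : ℝ} (ha : 0 < a) {s : ℂ} (hs : 1 / 2 < s.re) :
    P a t (Pinv a t s) = s := by
  unfold P Pinv
  set w : ℂ := s - 1 / 2 - t * Complex.I with hw
  have hre : w.re = s.re - 1 / 2 := by rw [hw]; simp
  have h1 : w + a ≠ 0 := by
    intro h
    have := congrArg Complex.re h
    rw [Complex.add_re, Complex.ofReal_re, Complex.zero_re, hre] at this
    linarith
  have ha' : (a : ℂ) ≠ 0 := by exact_mod_cast ha.ne'
  have hsw : s = w + (1 / 2 + t * Complex.I) := by rw [hw]; ring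
  have e1 : 1 - (w - a) / (w + a) = 2 * a / (w + a) := by
    rw [eq_div_iff h1, sub_mul, div_mul_cancel₀ _ h1]; ring
  have e2 : 1 + (w - a) / (w + a) = 2 * w / (w + a) := by
    rw [eq_div_iff h1, add_mul, div_mul_cancel₀ _ h1]; ring
  have e3 : (a : ℂ) * (2 * w / (w + a) / (2 * a / (w + a))) = w := by
    rw [div_div_div_cancel_right₀ h1]
    field_simp
  rw [e1, e2, e3, hsw]
  ring

/-- how close the preimages are to the centre -/
lemma Pinv_norm {a t : ℝ} {s : ℂ} {δ D : ℝ} (ha : 0 < a) (hδ : 0 < δ) (hs : 1 / 2 + δ ≤ s.re)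
    (hD : ‖s - 1 / 2 - t * Complex.I + a‖ ≤ D) :
    ‖Pinv a t s‖ ^ 2 ≤ 1 - 4 * a * δ / D ^ 2 := by
  set w : ℂ := s - 1 / 2 - t * Complex.I with hw
  have hre : w.re = s.re - 1 / 2 := by rw [hw]; simp
  have h1 : 0 < (w + a).re := by
    rw [Complex.add_re, Complex.ofReal_re, hre]; linarith
  have h2 : 0 < ‖w + a‖ := by
    have := Complex.abs_re_le_norm (w + a)
    exact lt_of_lt_of_le (lt_of_lt_of_le h1 (le_abs_self _)) this
  have h3 : ‖w - a‖ ^ 2 = ‖w + a‖ ^ 2 - 4 * a * w.re := by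
    rw [Complex.sq_norm, Complex.sq_norm, Complex.normSq_apply, Complex.normSq_apply]
    simp
    ring
  have e : Pinv a t s = (w - a) / (w + a) := by
    unfold Pinv
    rw [hw]
  rw [e, norm_div, div_pow, h3, sub_div, div_self (by positivity)]
  have h4 : 4 * a * δ / D ^ 2 ≤ 4 * a * w.re / ‖w + a‖ ^ 2 := by
    have h5 : 4 * a * δ ≤ 4 * a * w.re := by
      have : δ ≤ w.re := by rw [hre]; linarith
      exact mul_le_mul_of_nonneg_left this (by positivity)
    have h6 : ‖w + a‖ ^ 2 ≤ D ^ 2 := by gcongr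
    calc 4 * a * δ / D ^ 2 ≤ 4 * a * δ / ‖w + a‖ ^ 2 :=
          div_le_div_of_nonneg_left (by positivity) (by positivity) h6
      _ ≤ 4 * a * w.re / ‖w + a‖ ^ 2 := by gcongr
  linarith

lemma mult_comp_P {F : ℂ → ℂ} {a t : ℝ} (ha : 0 < a) {w : ℂ} (hw : ‖w‖ < 1) :
    mult (fun w => F (P a t w)) w = mult F (P a t w) := by
  have h1 := one_sub_ne hw
  have hd : HasDerivAt (P a t) (a * (2 / (1 - w) ^ 2)) w := by
    unfold P
    have hn : HasDerivAt (fun w : ℂ => 1 + w) 1 w := (hasDerivAt_id w).const_add 1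
    have hm : HasDerivAt (fun w : ℂ => 1 - w) (-1) w := (hasDerivAt_id w).const_sub 1
    have h := ((hn.div hm h1).const_mul (a : ℂ)).const_add (1 / 2 + t * Complex.I)
    refine h.congr_deriv ?_
    ring
  have h := analyticOrderAt_comp_of_deriv_ne_zero (f := F) (P_differentiableAt a t h1) (by
    rw [hd.deriv]
    have ha' : (a : ℂ) ≠ 0 := by exact_mod_cast ha.ne'
    exact mul_ne_zero ha' (div_ne_zero two_ne_zero (pow_ne_zero 2 h1)))
  unfold mult analyticOrderNatAt
  rw [← h]
  rfl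

variable {F : ℂ → ℂ} {A B : ℝ}

/-- **Poisson-Jensen inequality in the half plane**, with zeros. -/
theorem poissonZ (hd : ∀ s : ℂ, 1 / 2 ≤ s.re → AnalyticAt ℂ F s) (hB : 0 ≤ B)
    (hF : ∀ s : ℂ, 1 / 2 ≤ s.re → log⁺ ‖F s‖ ≤ A + B * Real.log (‖s‖ + 1))
    {a : ℝ} (ha : 0 < a) (t : ℝ) (h0 : F (1 / 2 + a + t * Complex.I) ≠ 0) {r : ℝ} (hr0 : 0 < r)
    (hr1 : r < 1) (S : Finset ℂ) (hS : ∀ s ∈ S, 1 / 2 < s.re ∧ ‖Pinv a t s‖ ≤ r) :
    Real.log ‖F (1 / 2 + a + t * Complex.I)‖ + (∑ s ∈ S, (mult F s : ℝ)) * Real.log (1 / r) ≤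
      (2 * π)⁻¹ * ∫ θ in (0:ℝ)..2 * π, log⁺ ‖F (1 / 2 + ((t + a * ct θ : ℝ) : ℂ) * Complex.I)‖ := by
  classical
  have hpi := Real.pi_pos
  have hlim : Tendsto (fun ρ : ℝ => ∫ θ in (0:ℝ)..2 * π, log⁺ ‖F (P a t (circleMap 0 ρ θ))‖)
      (𝓝[<] 1) (𝓝 (∫ θ in (0:ℝ)..2 * π, log⁺ ‖F (1 / 2 + ((t + a * ct θ : ℝ) : ℂ) * Complex.I)‖)) := by
    have hev : ∀ᶠ ρ : ℝ in 𝓝[<] (1:ℝ), 1 / 4 ≤ ρ ∧ ρ < 1 := by
      have h1 : ∀ᶠ ρ : ℝ in 𝓝[<] (1:ℝ), 1 / 4 < ρ :=
        nhdsWithin_le_nhds (Ioi_mem_nhds (by norm_num))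
      filter_upwards [h1, self_mem_nhdsWithin] with ρ h2 h3
      exact ⟨h2.le, h3⟩
    have hae : ∀ᵐ θ : ℝ ∂volume, θ ∈ Set.uIoc 0 (2 * π) → 0 < θ ∧ θ < 2 * π := by
      have : ∀ᵐ θ : ℝ ∂volume, θ ≠ 2 * π := by
        simp [ae_iff, measure_singleton]
      filter_upwards [this] with θ h1 h2
      rw [Set.uIoc_of_le (by positivity)] at h2
      exact ⟨h2.1, lt_of_le_of_ne h2.2 h1⟩
    refine intervalIntegral.tendsto_integral_filter_of_dominated_convergence (BdF A B a t) ?_ ?_
      (BdF_integrable A B a t) ?_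
    · filter_upwards [hev] with ρ ⟨h4, h1⟩
      have hρ : 0 < ρ := by linarith
      have hc : Continuous fun θ : ℝ => log⁺ ‖F (P a t (circleMap 0 ρ θ))‖ := by
        refine continuous_posLog.comp (continuous_norm.comp ?_)
        rw [continuous_iff_continuousAt]
        intro θ
        have hw : ‖circleMap 0 ρ θ‖ < 1 := by
          rw [norm_circleMap_zero, abs_of_pos hρ]; exact h1
        have c1 : ContinuousAt (fun θ : ℝ => circleMap 0 ρ θ) θ := (continuous_circleMap 0 ρ).continuousAt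
        have c2 : ContinuousAt (P a t) (circleMap 0 ρ θ) :=
          (P_differentiableAt a t (one_sub_ne hw)).continuousAt
        have c3 : ContinuousAt F (P a t (circleMap 0 ρ θ)) := (hd _ (re_P ha hw)).continuousAt
        exact ContinuousAt.comp (f := fun θ : ℝ => P a t (circleMap 0 ρ θ)) c3
          (ContinuousAt.comp (f := fun θ : ℝ => circleMap 0 ρ θ) c2 c1)
      exact hc.aestronglyMeasurable
    · filter_upwards [hev] with ρ ⟨h4, h1⟩
      filter_upwards [hae] with θ h2 h3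
      obtain ⟨h5, h6⟩ := h2 h3
      rw [Real.norm_eq_abs, abs_of_nonneg posLog_nonneg]
      exact domF hB hF ha h4 h1 (sin_half_pos h5 h6).ne'
    · filter_upwards [hae] with θ h2 h3
      obtain ⟨h5, h6⟩ := h2 h3
      have hs := sin_half_pos h5 h6
      rw [← P_circle a t h5 h6]
      have hne : 1 - circleMap 0 1 θ ≠ 0 := by
        have h7 := norm_one_sub (ρ := 1) (θ := θ) (by norm_num)
        intro h
        rw [h, norm_zero] at h7
        exact hs.ne' (abs_eq_zero.1 (le_antisymm h7 (abs_nonneg _)))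
      have c1 : Tendsto (fun ρ : ℝ => circleMap 0 ρ θ) (𝓝[<] 1) (𝓝 (circleMap 0 1 θ)) := by
        have : Continuous fun ρ : ℝ => circleMap 0 ρ θ := by
          unfold circleMap; fun_prop
        exact (this.tendsto 1).mono_left nhdsWithin_le_nhds
      have c2 : ContinuousAt (P a t) (circleMap 0 1 θ) := (P_differentiableAt a t hne).continuousAt
      have c3 : ContinuousAt F (P a t (circleMap 0 1 θ)) := by
        refine (hd _ ?_).continuousAt
        rw [P_circle a t h5 h6]
        simp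
      have c4 : Tendsto (fun ρ : ℝ => F (P a t (circleMap 0 ρ θ))) (𝓝[<] 1)
          (𝓝 (F (P a t (circleMap 0 1 θ)))) := c3.tendsto.comp (c2.tendsto.comp c1)
      exact (continuous_posLog.tendsto _).comp c4.norm
  have hge : ∀ᶠ ρ : ℝ in 𝓝[<] (1:ℝ), 2 * π * (Real.log ‖F (1 / 2 + a + t * Complex.I)‖ +
      (∑ s ∈ S, (mult F s : ℝ)) * Real.log (ρ / r)) ≤
      ∫ θ in (0:ℝ)..2 * π, log⁺ ‖F (P a t (circleMap 0 ρ θ))‖ := by
    have h1 : ∀ᶠ ρ : ℝ in 𝓝[<] (1:ℝ), max (1 / 4) r < ρ :=
      nhdsWithin_le_nhds (Ioi_mem_nhds (max_lt (by norm_num) hr1))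
    filter_upwards [h1, self_mem_nhdsWithin] with ρ h2 h3
    have h2a : 1 / 4 < ρ := lt_of_le_of_lt (le_max_left _ _) h2
    have h2b : r < ρ := lt_of_le_of_lt (le_max_right _ _) h2
    have hρ : 0 < ρ := by linarith
    have h3' : ρ < 1 := h3
    have h5 : AnalyticOnNhd ℂ (fun w => F (P a t w)) (Metric.closedBall 0 ρ) := by
      intro w hw
      have hw' : ‖w‖ < 1 := by
        rw [Metric.mem_closedBall, dist_zero_right] at hw
        linarith
      have c2 := P_differentiableAt a t (one_sub_ne hw')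
      have c3 : AnalyticAt ℂ F (P a t w) := hd _ (re_P ha hw')
      exact c3.comp c2
    have hinj : Set.InjOn (Pinv a t) S := by
      intro x hx y hy hxy
      rw [← P_Pinv (t := t) ha (hS x hx).1, ← P_Pinv (t := t) ha (hS y hy).1, hxy]
    have h6 := jensen_avg (f := fun w => F (P a t w)) (c := 0) (r := r) (R := ρ) hr0 h2b.le h5
      (by rw [P_zero]; exact h0) (S.image (Pinv a t)) (by
        intro z hz
        obtain ⟨s, hs, rfl⟩ := Finset.mem_image.1 hz
        rw [mem_closedBall_zero_iff]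
        exact (hS s hs).2)
    rw [Finset.sum_image hinj] at h6
    have h7 : ∑ s ∈ S, (mult (fun w => F (P a t w)) (Pinv a t s) : ℝ) = ∑ s ∈ S, (mult F s : ℝ) := by
      refine Finset.sum_congr rfl fun s hs => ?_
      rw [mult_comp_P ha (lt_of_le_of_lt (hS s hs).2 hr1), P_Pinv ha (hS s hs).1]
    rw [h7, P_zero, circleAverage_def, smul_eq_mul] at h6
    rw [← div_eq_inv_mul, le_div_iff₀ (by positivity)] at h6
    linarith
  have hlim2 : Tendsto (fun ρ : ℝ => 2 * π * (Real.log ‖F (1 / 2 + a + t * Complex.I)‖ +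
      (∑ s ∈ S, (mult F s : ℝ)) * Real.log (ρ / r))) (𝓝[<] 1)
      (𝓝 (2 * π * (Real.log ‖F (1 / 2 + a + t * Complex.I)‖ +
      (∑ s ∈ S, (mult F s : ℝ)) * Real.log (1 / r)))) := by
    have hc : ContinuousAt (fun ρ : ℝ => Real.log (ρ / r)) 1 :=
      ContinuousAt.log (continuousAt_id.div_const r) (by simp; exact hr0.ne')
    have := hc.tendsto.mono_left (nhdsWithin_le_nhds (s := Set.Iio (1:ℝ)))
    exact ((this.const_mul _).const_add _).const_mul _
  have h2 := le_of_tendsto_of_tendsto hlim2 hlim hge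
  rw [← div_eq_inv_mul, le_div_iff₀ (by positivity)]
  linarith

end Pool.Agent.V7H52.GM
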