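import Pool.Agent.V7H52.GM.A

/-!
Truncated logarithmic means over a probability measure, and the Poisson-Jensen inequality for them.
-/

set_option autoImplicit false
open MeasureTheory Filter Topology Set Real

namespace Pool.Agent.V7H52.GM

open Pool.Agent.H983R4.LH Pool.Agent.H983R4.GL H370 H370.Loc

/-- the truncated logarithmic mean -/
noncomputable def LM (ρ : Measure ℂ) (f : ℂ → ℂ) (M t : ℝ) : ℝ :=
  ∫ z, Real.log (max ‖f (1 / 2 + t * Complex.I + z)‖ (Real.exp (-M))) ∂ρ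

lemma posLog_trunc (M : ℝ) {y : ℝ} (hy : 0 ≤ y) :
    log⁺ (Real.exp M * y) = M + Real.log (max y (Real.exp (-M))) := by
  have h1 : 0 < Real.exp M := Real.exp_pos M
  rw [posLog_eq_log_max_one (by positivity)]
  have e : max 1 (Real.exp M * y) = Real.exp M * max y (Real.exp (-M)) := by
    rw [mul_max_of_nonneg _ _ h1.le, ← Real.exp_add, add_neg_cancel, Real.exp_zero, max_comm]
  have h2 : 0 < max y (Real.exp (-M)) := lt_max_of_lt_right (Real.exp_pos _)
  rw [e, Real.log_mul h1.ne' h2.ne', Real.log_exp]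

lemma trunc_ge (M y : ℝ) : -M ≤ Real.log (max y (Real.exp (-M))) := by
  have h := Real.log_le_log (Real.exp_pos (-M)) (le_max_right y (Real.exp (-M)))
  rwa [Real.log_exp] at h

lemma trunc_le {M y : ℝ} (hM : 0 ≤ M) (hy : 0 ≤ y) : Real.log (max y (Real.exp (-M))) ≤ log⁺ y := by
  rw [posLog_eq_log_max_one hy]
  apply Real.log_le_log (lt_max_of_lt_right (Real.exp_pos _))
  rw [max_comm 1 y]
  exact max_le_max le_rfl (Real.exp_le_one_iff.2 (by linarith))

lemma trunc_abs {M y b : ℝ} (hM : 0 ≤ M) (hy : 0 ≤ y) (hb : log⁺ y ≤ b) :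
    |Real.log (max y (Real.exp (-M)))| ≤ M + b := by
  have h1 := trunc_ge M y
  have h2 := trunc_le hM hy
  have h3 : 0 ≤ log⁺ y := posLog_nonneg
  rw [abs_le]
  constructor <;> linarith

lemma trunc_anti {M M' y : ℝ} (h : M ≤ M') :
    Real.log (max y (Real.exp (-M'))) ≤ Real.log (max y (Real.exp (-M))) := by
  apply Real.log_le_log (lt_max_of_lt_right (Real.exp_pos _))
  exact max_le_max le_rfl (Real.exp_le_exp.2 (by linarith))

lemma trunc_mono {M y y' : ℝ} (h : y ≤ y') :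
    Real.log (max y (Real.exp (-M))) ≤ Real.log (max y' (Real.exp (-M))) := by
  apply Real.log_le_log (lt_max_of_lt_right (Real.exp_pos _))
  exact max_le_max h le_rfl

section

variable {F : ℂ → ℂ} {A B R : ℝ} {ρ : Measure ℂ}

/-- the data: `F` is analytic on `Re s ≥ 1/2` and of finite order -/
structure Dat (F : ℂ → ℂ) (A B : ℝ) : Prop where
  an : ∀ s : ℂ, 1 / 2 ≤ s.re → AnalyticAt ℂ F s
  hA : 0 ≤ A
  hB : 0 ≤ B
  g : ∀ s : ℂ, 1 / 2 ≤ s.re → log⁺ ‖F s‖ ≤ A + B * Real.log (‖s‖ + 1)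

/-- the measure lives on a compact subset of the closed right half plane -/
def Car (ρ : Measure ℂ) (R : ℝ) : Prop := ∀ᵐ z ∂ρ, 0 ≤ z.re ∧ ‖z‖ ≤ R

lemma meas_car : MeasurableSet {z : ℂ | 0 ≤ z.re} :=
  (isClosed_le continuous_const Complex.continuous_re).measurableSet

lemma Car.restrict (h : Car ρ R) : ρ.restrict {z : ℂ | 0 ≤ z.re} = ρ :=
  Measure.restrict_eq_self_of_ae_mem (by filter_upwards [h] with z hz; exact hz.1)

lemma re_shift (x : ℝ) (z : ℂ) : (1 / 2 + (x : ℂ) * Complex.I + z).re = 1 / 2 + z.re := by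
  simp

lemma im_shift (x : ℝ) (z : ℂ) : (1 / 2 + (x : ℂ) * Complex.I + z).im = x + z.im := by
  simp

lemma norm_shift (x : ℝ) {z : ℂ} (hz : ‖z‖ ≤ R) : ‖1 / 2 + (x : ℂ) * Complex.I + z‖ ≤ 1 / 2 + |x| + R := by
  refine (norm_add_le _ _).trans (add_le_add ((norm_add_le _ _).trans (add_le_add ?_ ?_)) hz)
  · simp
  · rw [norm_mul, Complex.norm_I, mul_one, Complex.norm_real, Real.norm_eq_abs]

lemma Dat.bound (H : Dat F A B) (x : ℝ) {z : ℂ} (h0 : 0 ≤ z.re) (hz : ‖z‖ ≤ R) :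
    log⁺ ‖F (1 / 2 + x * Complex.I + z)‖ ≤ A + B * Real.log (3 / 2 + |x| + R) := by
  refine (H.g _ (by rw [re_shift]; linarith)).trans ?_
  have h1 := norm_shift x hz
  have h2 : Real.log (‖1 / 2 + (x : ℂ) * Complex.I + z‖ + 1) ≤ Real.log (3 / 2 + |x| + R) :=
    Real.log_le_log (by positivity) (by linarith)
  have := mul_le_mul_of_nonneg_left h2 H.hB
  linarith

lemma Dat.contOn (H : Dat F A B) (x : ℝ) :
    ContinuousOn (fun z : ℂ => F (1 / 2 + x * Complex.I + z)) {z : ℂ | 0 ≤ z.re} := by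
  intro z hz
  have h1 : ContinuousAt F (1 / 2 + x * Complex.I + z) :=
    (H.an _ (by rw [re_shift]; have : 0 ≤ z.re := hz; linarith)).continuousAt
  have h2 : ContinuousAt (fun z : ℂ => 1 / 2 + (x : ℂ) * Complex.I + z) z := by fun_prop
  exact (ContinuousAt.comp (f := fun z : ℂ => 1 / 2 + (x : ℂ) * Complex.I + z) h1 h2).continuousWithinAt

lemma cont_trunc (M : ℝ) : Continuous fun w : ℂ => Real.log (max ‖w‖ (Real.exp (-M))) := by
  refine Continuous.log (by fun_prop) fun w => ?_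
  exact (lt_max_of_lt_right (Real.exp_pos _)).ne'

lemma Dat.meas (H : Dat F A B) (hρ : Car ρ R) (M x : ℝ) : AEStronglyMeasurable
    (fun z : ℂ => Real.log (max ‖F (1 / 2 + x * Complex.I + z)‖ (Real.exp (-M)))) ρ := by
  rw [← hρ.restrict]
  exact ((cont_trunc M).comp_continuousOn (H.contOn x)).aestronglyMeasurable meas_car

lemma Dat.integrable [IsFiniteMeasure ρ] (H : Dat F A B) (hρ : Car ρ R) {M : ℝ} (hM : 0 ≤ M) (x : ℝ) :
    Integrable (fun z : ℂ => Real.log (max ‖F (1 / 2 + x * Complex.I + z)‖ (Real.exp (-M)))) ρ := by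
  refine Integrable.mono' (integrable_const (M + (A + B * Real.log (3 / 2 + |x| + R)))) (H.meas hρ M x) ?_
  filter_upwards [hρ] with z hz
  rw [Real.norm_eq_abs]
  exact trunc_abs hM (norm_nonneg _) (H.bound x hz.1 hz.2)

lemma Dat.LM_le [IsProbabilityMeasure ρ] (H : Dat F A B) (hρ : Car ρ R) {M : ℝ} (hM : 0 ≤ M) (x : ℝ) :
    LM ρ F M x ≤ A + B * Real.log (3 / 2 + |x| + R) := by
  have h1 : LM ρ F M x ≤ ∫ _ : ℂ, (A + B * Real.log (3 / 2 + |x| + R)) ∂ρ := by
    refine integral_mono_ae (H.integrable hρ hM x) (integrable_const _) ?_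
    filter_upwards [hρ] with z hz
    exact (trunc_le hM (norm_nonneg _)).trans (H.bound x hz.1 hz.2)
  simpa using h1

lemma Dat.LM_cont [IsFiniteMeasure ρ] (H : Dat F A B) (hρ : Car ρ R) {M : ℝ} (hM : 0 ≤ M) :
    Continuous (LM ρ F M) := by
  rw [continuous_iff_continuousAt]
  intro x₀
  refine continuousAt_of_dominated (F := fun (x : ℝ) (z : ℂ) =>
      Real.log (max ‖F (1 / 2 + x * Complex.I + z)‖ (Real.exp (-M))))
    (bound := fun _ => M + (A + B * Real.log (3 / 2 + (|x₀| + 1) + R))) ?_ ?_ (integrable_const _) ?_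
  · exact Eventually.of_forall fun x => H.meas hρ M x
  · filter_upwards [Metric.ball_mem_nhds x₀ one_pos] with x hx
    filter_upwards [hρ] with z hz
    rw [Real.norm_eq_abs]
    refine trunc_abs hM (norm_nonneg _) ((H.bound x hz.1 hz.2).trans ?_)
    rw [Metric.mem_ball, Real.dist_eq] at hx
    have h1 : |x| ≤ |x₀| + 1 := by
      have := abs_sub_abs_le_abs_sub x x₀
      linarith
    have hR : 0 ≤ R := (norm_nonneg z).trans hz.2
    have h2 : Real.log (3 / 2 + |x| + R) ≤ Real.log (3 / 2 + (|x₀| + 1) + R) :=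
      Real.log_le_log (by positivity) (by linarith)
    have := mul_le_mul_of_nonneg_left h2 H.hB
    linarith
  · filter_upwards [hρ] with z hz
    refine (cont_trunc M).continuousAt.comp ?_
    have h1 : ContinuousAt F (1 / 2 + x₀ * Complex.I + z) :=
      (H.an _ (by rw [re_shift]; linarith [hz.1])).continuousAt
    have h2 : ContinuousAt (fun x : ℝ => 1 / 2 + (x : ℂ) * Complex.I + z) x₀ := by fun_prop
    exact ContinuousAt.comp (f := fun x : ℝ => 1 / 2 + (x : ℂ) * Complex.I + z) h1 h2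

/-- `log (3/2 + |T + a cot| + R)` -/
lemma log_ct {a T R : ℝ} (ha : 0 < a) (hR : 0 ≤ R) (θ : ℝ) :
    Real.log (3 / 2 + |T + a * ct θ| + R) ≤ Real.log (3 / 2 + |T| + R) + Real.log (1 + a) + ps θ := by
  unfold ps
  rw [← Real.log_mul (by positivity) (by positivity), ← Real.log_mul (by positivity) (by positivity)]
  apply Real.log_le_log (by positivity)
  have h1 : |T + a * ct θ| ≤ |T| + a * |ct θ| := by
    refine (abs_add_le _ _).trans ?_
    rw [abs_mul, abs_of_pos ha]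
  have h2 : 0 ≤ |ct θ| := abs_nonneg _
  have h3 : 0 ≤ |T| := abs_nonneg _
  have h4 : 0 ≤ a * |ct θ| := by positivity
  nlinarith [mul_nonneg h3 ha.le, mul_nonneg h3 h2, mul_nonneg hR ha.le, mul_nonneg hR h2,
    mul_nonneg h3 h4, mul_nonneg hR h4]

/-- the measure on the angles -/
noncomputable def νθ : Measure ℝ := (volume : Measure ℝ).restrict (Set.Ioc 0 (2 * π))

lemma νθ_eq : νθ = (volume : Measure ℝ).restrict (Set.Ioo 0 (2 * π)) := by
  unfold νθ
  rw [restrict_Ioo_eq_restrict_Ioc]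

instance : IsFiniteMeasure νθ := by
  unfold νθ
  infer_instance

lemma ct_contOn : ContinuousOn ct (Set.Ioo 0 (2 * π)) := by
  unfold ct
  refine ContinuousOn.div (by fun_prop) (by fun_prop) fun θ hθ => ?_
  exact (sin_half_pos hθ.1 hθ.2).ne'

lemma Dat.prod_meas [IsFiniteMeasure ρ] (H : Dat F A B) (hρ : Car ρ R) (M a T : ℝ) : AEStronglyMeasurable
    (Function.uncurry fun (z : ℂ) (θ : ℝ) =>
      Real.log (max ‖F (1 / 2 + ((T + a * ct θ : ℝ) : ℂ) * Complex.I + z)‖ (Real.exp (-M)))) (ρ.prod νθ) := by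
  rw [← hρ.restrict, νθ_eq, Measure.prod_restrict]
  refine ContinuousOn.aestronglyMeasurable ?_ (meas_car.prod measurableSet_Ioo)
  refine (cont_trunc M).comp_continuousOn (f := fun p : ℂ × ℝ =>
    F (1 / 2 + ((T + a * ct p.2 : ℝ) : ℂ) * Complex.I + p.1)) ?_
  intro p hp
  have h1 : ContinuousAt F (1 / 2 + ((T + a * ct p.2 : ℝ) : ℂ) * Complex.I + p.1) :=
    (H.an _ (by rw [re_shift]; have : 0 ≤ p.1.re := hp.1; linarith)).continuousAt
  have h2 : ContinuousAt ct p.2 := ct_contOn.continuousAt (Ioo_mem_nhds hp.2.1 hp.2.2)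
  have h3 : ContinuousAt (fun p : ℂ × ℝ => ct p.2) p :=
    ContinuousAt.comp (f := fun p : ℂ × ℝ => p.2) h2 continuousAt_snd
  have h4 : ContinuousAt (fun p : ℂ × ℝ => 1 / 2 + ((T + a * ct p.2 : ℝ) : ℂ) * Complex.I + p.1) p := by
    have h5 : ContinuousAt (fun p : ℂ × ℝ => (T + a * ct p.2 : ℝ)) p := by fun_prop
    have h6 : ContinuousAt (fun p : ℂ × ℝ => ((T + a * ct p.2 : ℝ) : ℂ)) p :=
      ContinuousAt.comp (f := fun p : ℂ × ℝ => (T + a * ct p.2 : ℝ)) Complex.continuous_ofReal.continuousAt h5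
    fun_prop
  exact (ContinuousAt.comp (f := fun p : ℂ × ℝ =>
    1 / 2 + ((T + a * ct p.2 : ℝ) : ℂ) * Complex.I + p.1) h1 h4).continuousWithinAt

lemma Dat.prod_int [IsFiniteMeasure ρ] (H : Dat F A B) (hρ : Car ρ R) (hR : 0 ≤ R) {M a : ℝ} (hM : 0 ≤ M)
    (ha : 0 < a) (T : ℝ) : Integrable (Function.uncurry fun (z : ℂ) (θ : ℝ) =>
      Real.log (max ‖F (1 / 2 + ((T + a * ct θ : ℝ) : ℂ) * Complex.I + z)‖ (Real.exp (-M)))) (ρ.prod νθ) := by
  have hps : Integrable (fun θ : ℝ => M + (A + B * (Real.log (3 / 2 + |T| + R) + Real.log (1 + a) + ps θ))) νθ := by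
    refine (integrable_const M).add ((integrable_const A).add (Integrable.const_mul ?_ B))
    exact (integrable_const _).add ps_integrable
  refine Integrable.mono' (hps.comp_snd ρ) (H.prod_meas hρ M a T) ?_
  have h1 : ∀ᵐ p : ℂ × ℝ ∂(ρ.prod νθ), 0 ≤ p.1.re ∧ ‖p.1‖ ≤ R :=
    Measure.quasiMeasurePreserving_fst.ae hρ
  filter_upwards [h1] with p hp
  rw [Real.norm_eq_abs]
  refine trunc_abs hM (norm_nonneg _) ((H.bound _ hp.1 hp.2).trans ?_)
  have := mul_le_mul_of_nonneg_left (log_ct (T := T) ha hR p.2) H.hB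
  linarith

end

end Pool.Agent.V7H52.GM
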