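import Pool.Agent.V7H52.GM.B

/-!
The Poisson-Jensen inequality, integrated over a probability measure.
-/

set_option autoImplicit false
open MeasureTheory Filter Topology Set Real

namespace Pool.Agent.V7H52.GM

open Pool.Agent.H983R4.LH Pool.Agent.H983R4.GL H370 H370.Loc

variable {F : ℂ → ℂ} {A B R : ℝ} {ρ : Measure ℂ}

lemma analyticAt_shift (H : Dat F A B) {z s : ℂ} (hz : 0 ≤ z.re) (hs : 1 / 2 ≤ s.re) :
    AnalyticAt ℂ (fun s => F (s + z)) s := by
  have h1 : AnalyticAt ℂ F (s + z) := H.an _ (by rw [Complex.add_re]; linarith)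
  have h2 : AnalyticAt ℂ (fun s : ℂ => s + z) s := by fun_prop
  exact AnalyticAt.fun_comp (f := fun s : ℂ => s + z) h1 h2

/-- a multiple of a shift has the multiplicities of the function -/
lemma mult_shift (H : Dat F A B) {z s : ℂ} {c : ℂ} (hc : c ≠ 0) (hz : 0 ≤ z.re) (hs : 1 / 2 ≤ (s - z).re) :
    mult (fun w => c * F (w + z)) (s - z) = mult F s := by
  unfold mult analyticOrderNatAt
  have h1 := analyticAt_shift H hz hs
  have h2 : analyticOrderAt (fun w => c * F (w + z)) (s - z) =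
      analyticOrderAt (fun _ : ℂ => c) (s - z) + analyticOrderAt (fun w => F (w + z)) (s - z) :=
    analyticOrderAt_mul (f := fun _ : ℂ => c) (g := fun w => F (w + z)) analyticAt_const h1
  have h3 : analyticOrderAt (fun _ : ℂ => c) (s - z) = 0 := by
    rw [analyticAt_const.analyticOrderAt_eq_zero]
    exact hc
  have h4 := analyticOrderAt_comp_of_deriv_ne_zero (f := F) (g := fun w : ℂ => w + z) (z₀ := s - z)
    (by fun_prop) (by
      have : deriv (fun w : ℂ => w + z) (s - z) = 1 := by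
        rw [deriv_add_const]; simp
      rw [this]
      exact one_ne_zero)
  have h5 : F ∘ (fun w : ℂ => w + z) = fun w => F (w + z) := rfl
  rw [h5, sub_add_cancel] at h4
  rw [h2, h3, h4, zero_add]

/-- **the Poisson-Jensen inequality at one point `z`** -/
lemma point (H : Dat F A B) {a M r : ℝ} (ha : 0 < a) (hM : 0 ≤ M) (T : ℝ) {z : ℂ} (hz : 0 ≤ z.re)
    (hz' : ‖z‖ ≤ R) (h0 : F (1 / 2 + a + T * Complex.I + z) ≠ 0) (hr0 : 0 < r) (hr1 : r < 1) (S : Finset ℂ)
    (hS : ∀ s ∈ S, 1 / 2 < (s - z).re ∧ ‖Pinv a T (s - z)‖ ≤ r) :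
    Real.log ‖F (1 / 2 + a + T * Complex.I + z)‖ + (∑ s ∈ S, (mult F s : ℝ)) * Real.log (1 / r) ≤
      (2 * π)⁻¹ * ∫ θ, Real.log (max ‖F (1 / 2 + ((T + a * ct θ : ℝ) : ℂ) * Complex.I + z)‖
        (Real.exp (-M))) ∂νθ := by
  classical
  have hpi := Real.pi_pos
  have hR : 0 ≤ R := (norm_nonneg z).trans hz'
  have hc : (Real.exp M : ℂ) ≠ 0 := by exact_mod_cast (Real.exp_pos M).ne'
  have hcn : ‖(Real.exp M : ℂ)‖ = Real.exp M := by
    rw [Complex.norm_real, Real.norm_eq_abs, abs_of_pos (Real.exp_pos M)]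
  have hinj : Set.InjOn (fun s : ℂ => s - z) S := by
    intro x _ y _ hxy
    exact sub_left_injective hxy
  have h1 := poissonZ (F := fun w => (Real.exp M : ℂ) * F (w + z)) (A := M + (A + B * Real.log (1 + R)))
    (B := B) (a := a) (r := r)
    (fun s hs => analyticAt_const.mul (analyticAt_shift H hz hs)) H.hB (by
      intro s hs
      rw [norm_mul, hcn, posLog_trunc M (norm_nonneg _)]
      have h2 := trunc_le hM (norm_nonneg (F (s + z)))
      have h3 := H.g (s + z) (by rw [Complex.add_re]; linarith)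
      have h4 : Real.log (‖s + z‖ + 1) ≤ Real.log (1 + R) + Real.log (‖s‖ + 1) := by
        rw [← Real.log_mul (by positivity) (by positivity)]
        apply Real.log_le_log (by positivity)
        have := norm_add_le s z
        nlinarith [norm_nonneg s, mul_nonneg hR (norm_nonneg s)]
      have := mul_le_mul_of_nonneg_left h4 H.hB
      linarith) ha T (by
      have e : (1 / 2 + (a : ℂ) + T * Complex.I) + z = 1 / 2 + a + T * Complex.I + z := rfl
      exact mul_ne_zero hc h0) hr0 hr1 (S.image fun s => s - z) (by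
      intro s hs
      obtain ⟨w, hw, rfl⟩ := Finset.mem_image.1 hs
      exact hS w hw)
  rw [Finset.sum_image hinj] at h1
  have h2 : ∑ s ∈ S, (mult (fun w => (Real.exp M : ℂ) * F (w + z)) (s - z) : ℝ) = ∑ s ∈ S, (mult F s : ℝ) := by
    refine Finset.sum_congr rfl fun s hs => ?_
    rw [mult_shift H hc hz (hS s hs).1.le]
  rw [h2, norm_mul, hcn, Real.log_mul (Real.exp_pos M).ne' (norm_ne_zero_iff.2 h0), Real.log_exp] at h1
  have h3 : ∀ θ : ℝ, log⁺ ‖(Real.exp M : ℂ) * F (1 / 2 + ((T + a * ct θ : ℝ) : ℂ) * Complex.I + z)‖ =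
      M + Real.log (max ‖F (1 / 2 + ((T + a * ct θ : ℝ) : ℂ) * Complex.I + z)‖ (Real.exp (-M))) := by
    intro θ
    rw [norm_mul, hcn, posLog_trunc M (norm_nonneg _)]
  simp only [h3] at h1
  rw [intervalIntegral.integral_of_le (by positivity)] at h1
  have hint : Integrable (fun θ : ℝ => Real.log (max ‖F (1 / 2 + ((T + a * ct θ : ℝ) : ℂ) * Complex.I + z)‖
      (Real.exp (-M)))) νθ := by
    have h5 : Integrable (fun θ : ℝ => M + (A + B * (Real.log (3 / 2 + |T| + R) + Real.log (1 + a) + ps θ))) νθ := by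
      refine (integrable_const M).add ((integrable_const A).add (Integrable.const_mul ?_ B))
      exact (integrable_const _).add ps_integrable
    refine Integrable.mono' h5 ?_ ?_
    · rw [νθ_eq]
      refine ContinuousOn.aestronglyMeasurable ?_ measurableSet_Ioo
      refine (cont_trunc M).comp_continuousOn (f := fun θ : ℝ =>
        F (1 / 2 + ((T + a * ct θ : ℝ) : ℂ) * Complex.I + z)) ?_
      intro θ hθ
      have h6 : ContinuousAt F (1 / 2 + ((T + a * ct θ : ℝ) : ℂ) * Complex.I + z) :=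
        (H.an _ (by rw [re_shift]; linarith)).continuousAt
      have h7 : ContinuousAt ct θ := ct_contOn.continuousAt (Ioo_mem_nhds hθ.1 hθ.2)
      have h8 : ContinuousAt (fun θ : ℝ => ((T + a * ct θ : ℝ) : ℂ)) θ :=
        ContinuousAt.comp (f := fun θ : ℝ => (T + a * ct θ : ℝ)) Complex.continuous_ofReal.continuousAt (by fun_prop)
      have h9 : ContinuousAt (fun θ : ℝ => 1 / 2 + ((T + a * ct θ : ℝ) : ℂ) * Complex.I + z) θ := by fun_prop
      exact (ContinuousAt.comp (f := fun θ : ℝ => 1 / 2 + ((T + a * ct θ : ℝ) : ℂ) * Complex.I + z) h6 h9).continuousWithinAt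
    · refine Eventually.of_forall fun θ => ?_
      rw [Real.norm_eq_abs]
      refine trunc_abs hM (norm_nonneg _) ((H.bound _ hz hz').trans ?_)
      have := mul_le_mul_of_nonneg_left (log_ct (T := T) ha hR θ) H.hB
      linarith
  have h4 : ∫ θ in Set.Ioc 0 (2 * π), (M + Real.log (max ‖F (1 / 2 + ((T + a * ct θ : ℝ) : ℂ) * Complex.I + z)‖
      (Real.exp (-M)))) = 2 * π * M + ∫ θ, Real.log (max ‖F (1 / 2 + ((T + a * ct θ : ℝ) : ℂ) * Complex.I + z)‖
        (Real.exp (-M))) ∂νθ := by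
    have e := integral_add (μ := νθ) (integrable_const M) hint
    have e6 : νθ.real Set.univ = 2 * π := by
      unfold νθ
      simp [Measure.real, Real.volume_Ioc, hpi.le]
    rw [integral_const, e6, smul_eq_mul] at e
    exact e
  rw [h4, mul_add, ← mul_assoc, inv_mul_cancel₀ (by positivity), one_mul] at h1
  linarith

/-- **the integrated Poisson-Jensen inequality** -/
theorem integrated [IsProbabilityMeasure ρ] (H : Dat F A B) (hρ : Car ρ R) (hR : 0 ≤ R) {a M r l δ : ℝ}
    (ha : 0 < a) (hM : 0 ≤ M) (T : ℝ)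
    (h0 : ∀ z : ℂ, 0 ≤ z.re → ‖z‖ ≤ R → F (1 / 2 + a + T * Complex.I + z) ≠ 0 ∧
      l ≤ Real.log ‖F (1 / 2 + a + T * Complex.I + z)‖) (hr0 : 0 < r) (hr1 : r < 1) (S : Finset ℂ)
    (hS : ∀ z : ℂ, 0 ≤ z.re → ‖z‖ ≤ R → z.re < δ → ∀ s ∈ S, 1 / 2 < (s - z).re ∧ ‖Pinv a T (s - z)‖ ≤ r) :
    l + (ρ {z : ℂ | z.re < δ}).toReal * ((∑ s ∈ S, (mult F s : ℝ)) * Real.log (1 / r)) ≤
      (2 * π)⁻¹ * ∫ θ, LM ρ F M (T + a * ct θ) ∂νθ := by
  classical
  set N : ℝ := (∑ s ∈ S, (mult F s : ℝ)) * Real.log (1 / r) with hN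
  have hDm : MeasurableSet {z : ℂ | z.re < δ} :=
    (isOpen_lt Complex.continuous_re continuous_const).measurableSet
  have hint := H.prod_int hρ hR hM ha T
  have hsw := integral_integral_swap hint
  unfold LM
  rw [← hsw, ← integral_const_mul]
  have hi : Integrable (fun z : ℂ => (2 * π)⁻¹ * ∫ θ, Real.log (max ‖F (1 / 2 + ((T + a * ct θ : ℝ) : ℂ) * Complex.I + z)‖
        (Real.exp (-M))) ∂νθ) ρ := (hint.integral_prod_left).const_mul _
  have hl : Integrable (fun z : ℂ => l + ({z : ℂ | z.re < δ}).indicator (fun _ => N) z) ρ :=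
    (integrable_const _).add ((integrable_const _).indicator hDm)
  have h1 : ∫ z, (l + ({z : ℂ | z.re < δ}).indicator (fun _ => N) z) ∂ρ =
      l + (ρ {z : ℂ | z.re < δ}).toReal * N := by
    rw [integral_add (integrable_const _) ((integrable_const _).indicator hDm), integral_indicator hDm]
    simp [Measure.real]
  rw [← h1]
  refine integral_mono_ae hl hi ?_
  filter_upwards [hρ] with z hz
  obtain ⟨h3, h4⟩ := h0 z hz.1 hz.2
  by_cases hzδ : z.re < δ
  · have h5 := point H ha hM T hz.1 hz.2 h3 hr0 hr1 S (hS z hz.1 hz.2 hzδ)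
    rw [indicator_of_mem (show z ∈ {z : ℂ | z.re < δ} from hzδ)]
    linarith
  · have h5 := point H ha hM T hz.1 hz.2 h3 hr0 hr1 ∅ (by simp)
    rw [indicator_of_notMem (show z ∉ {z : ℂ | z.re < δ} from hzδ)]
    simp only [Finset.sum_empty, zero_mul, add_zero] at h5
    linarith

/-- a mean over the angles -/
lemma mean_bound {m : ℝ → ℝ} {a T H q E G : ℝ} {v : ℝ} (ha : 0 < a) (hH : 0 < H) (hq : 0 ≤ q) (hE : 0 ≤ E)
    (hG : 0 ≤ G) (hv : 0 ≤ v) (hm : ∀ θ : ℝ, m (T + a * ct θ) ≤ E + G * ps θ)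
    (hvol : volume {x : ℝ | |x - T| ≤ H ∧ q ≤ m x} ≤ ENNReal.ofReal v) :
    ∫ θ, m (T + a * ct θ) ∂νθ ≤
      2 * π * q + 2 / a * v * E + (E / Real.log (1 + H / a) + G) * C0 := by
  have hpi := Real.pi_pos
  have hΛ : 0 < Real.log (1 + H / a) := Real.log_pos (by
    have : 0 < H / a := by positivity
    linarith)
  have hC0 := C0_nonneg
  set V : Set ℝ := {θ : ℝ | (0 < θ ∧ θ < 2 * π) ∧ T + a * ct θ ∈ {x : ℝ | |x - T| ≤ H ∧ q ≤ m x}} with hV
  set W := toMeasurable volume V with hW
  have hWm : MeasurableSet W := measurableSet_toMeasurable _ _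
  have hWv : volume W ≤ ENNReal.ofReal (2 / a * v) := by
    rw [hW, measure_toMeasurable]
    refine (vol_pre ha T _).trans ?_
    rw [ENNReal.ofReal_mul (by positivity)]
    exact mul_le_mul_right hvol _
  set A' := E / Real.log (1 + H / a) + G with hA
  have hA0 : 0 ≤ A' := by positivity
  have hWv' : νθ W ≤ ENNReal.ofReal (2 / a * v) := (Measure.restrict_apply_le _ _).trans hWv
  have hg1 : Integrable (fun _ : ℝ => q) νθ := integrable_const _
  have hg2 : Integrable (W.indicator (fun _ : ℝ => E)) νθ := (integrable_const _).indicator hWm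
  have hg3 : Integrable (fun θ => A' * ps θ) νθ := ps_integrable.const_mul A'
  have hle : ∫ θ, m (T + a * ct θ) ∂νθ ≤ ∫ θ, (q + W.indicator (fun _ : ℝ => E) θ + A' * ps θ) ∂νθ := by
    by_cases hmi : Integrable (fun θ => m (T + a * ct θ)) νθ
    swap
    · rw [integral_undef hmi]
      refine integral_nonneg fun θ => ?_
      have h1 : 0 ≤ W.indicator (fun _ : ℝ => E) θ := indicator_nonneg (fun _ _ => hE) θ
      have h2 : 0 ≤ A' * ps θ := mul_nonneg hA0 (ps_nonneg θ)
      show 0 ≤ q + W.indicator (fun _ : ℝ => E) θ + A' * ps θ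
      linarith
    refine integral_mono_ae hmi ((hg1.add hg2).add hg3) ?_
    have hae : ∀ᵐ θ : ℝ ∂νθ, 0 < θ ∧ θ < 2 * π := ae_mem
    filter_upwards [hae] with θ hθ
    have hps := ps_nonneg θ
    have h3 : 0 ≤ W.indicator (fun _ : ℝ => E) θ := indicator_nonneg (fun _ _ => hE) θ
    have h4 : 0 ≤ A' * ps θ := mul_nonneg hA0 hps
    show m (T + a * ct θ) ≤ q + W.indicator (fun _ : ℝ => E) θ + A' * ps θ
    have h6 : A' * ps θ = E / Real.log (1 + H / a) * ps θ + G * ps θ := by rw [hA]; ring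
    have h7 : 0 ≤ E / Real.log (1 + H / a) * ps θ := by positivity
    have h8 : 0 ≤ G * ps θ := by positivity
    by_cases hx : |T + a * ct θ - T| ≤ H
    · by_cases hq' : q ≤ m (T + a * ct θ)
      · have h5 : θ ∈ V := ⟨hθ, hx, hq'⟩
        rw [indicator_of_mem (subset_toMeasurable volume V h5)]
        have := hm θ
        linarith
      · push Not at hq'
        linarith
    · push Not at hx
      have h9 : H / a ≤ |ct θ| := by
        rw [add_sub_cancel_left, abs_mul, abs_of_pos ha] at hx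
        rw [div_le_iff₀ ha]
        linarith
      have h10 : Real.log (1 + H / a) ≤ ps θ := by
        unfold ps
        exact Real.log_le_log (by positivity) (by linarith)
      have h11 : E ≤ E / Real.log (1 + H / a) * ps θ := by
        rw [div_mul_eq_mul_div, le_div_iff₀ hΛ]
        exact mul_le_mul_of_nonneg_left h10 hE
      have := hm θ
      linarith
  refine hle.trans ?_
  have e1 : ∫ θ, (q + W.indicator (fun _ : ℝ => E) θ + A' * ps θ) ∂νθ =
      2 * π * q + (∫ θ, W.indicator (fun _ : ℝ => E) θ ∂νθ) + A' * C0 := by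
    have e4 := integral_add (f := fun θ => q + W.indicator (fun _ : ℝ => E) θ)
      (g := fun θ => A' * ps θ) (hg1.add hg2) hg3
    have e5 := integral_add (f := fun _ : ℝ => q)
      (g := fun θ => W.indicator (fun _ : ℝ => E) θ) hg1 hg2
    have e6 : νθ.real Set.univ = 2 * π := by
      unfold νθ
      simp [Measure.real, Real.volume_Ioc, hpi.le]
    have e7 : ∫ θ, A' * ps θ ∂νθ = A' * C0 := by
      unfold C0
      exact integral_const_mul A' ps
    have e8 : ∫ _, q ∂νθ = 2 * π * q := by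
      rw [integral_const, e6, smul_eq_mul]
    rw [e4, e5, e7, e8]
  have e2 : ∫ θ, W.indicator (fun _ : ℝ => E) θ ∂νθ ≤ 2 / a * v * E := by
    rw [integral_indicator hWm, integral_const, smul_eq_mul]
    refine mul_le_mul_of_nonneg_right ?_ hE
    rw [Measure.real, Measure.restrict_apply_univ]
    exact ENNReal.toReal_le_of_le_ofReal (by positivity) hWv'
  rw [e1]
  linarith

end Pool.Agent.V7H52.GM
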