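import Pool.Agent.V7H52.GM.C
import Pool.Agent.V7H88.BS.E

/-!
The functions `((s - 1) / (s + 1))^(d + 1) (P(d/ds) ζ (s) - a)`.
-/

set_option autoImplicit false
open Filter Topology Set Real

namespace Pool.Agent.V7H52.GM

open Pool.Agent.V7H88.BS H370

/-- entire functions of finite order in half planes `Re s ≥ x`, `x > 1/4` -/
def Tame (Ψ : ℂ → ℂ) : Prop := Differentiable ℂ Ψ ∧ ∀ x : ℝ, 1 / 4 < x → ∃ (C : ℝ) (k : ℕ), 0 ≤ C ∧
  ∀ s : ℂ, x ≤ s.re → ‖Ψ s‖ ≤ C * (1 + ‖s‖) ^ k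

lemma Tame.add {f g : ℂ → ℂ} (hf : Tame f) (hg : Tame g) : Tame (fun s => f s + g s) := by
  refine ⟨hf.1.add hg.1, fun x hx => ?_⟩
  obtain ⟨C, k, hC, h1⟩ := hf.2 x hx
  obtain ⟨D, l, hD, h2⟩ := hg.2 x hx
  refine ⟨C + D, k + l, by positivity, fun s hs => ?_⟩
  have h3 : (1:ℝ) ≤ 1 + ‖s‖ := by linarith [norm_nonneg s]
  have h4 : (1 + ‖s‖) ^ k ≤ (1 + ‖s‖) ^ (k + l) := pow_le_pow_right₀ h3 (by omega)
  have h5 : (1 + ‖s‖) ^ l ≤ (1 + ‖s‖) ^ (k + l) := pow_le_pow_right₀ h3 (by omega)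
  calc ‖f s + g s‖ ≤ ‖f s‖ + ‖g s‖ := norm_add_le _ _
    _ ≤ C * (1 + ‖s‖) ^ k + D * (1 + ‖s‖) ^ l := add_le_add (h1 s hs) (h2 s hs)
    _ ≤ C * (1 + ‖s‖) ^ (k + l) + D * (1 + ‖s‖) ^ (k + l) := by gcongr
    _ = _ := by ring

lemma Tame.mul {f g : ℂ → ℂ} (hf : Tame f) (hg : Tame g) : Tame (fun s => f s * g s) := by
  refine ⟨hf.1.mul hg.1, fun x hx => ?_⟩
  obtain ⟨C, k, hC, h1⟩ := hf.2 x hx
  obtain ⟨D, l, hD, h2⟩ := hg.2 x hx
  refine ⟨C * D, k + l, by positivity, fun s hs => ?_⟩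
  calc ‖f s * g s‖ = ‖f s‖ * ‖g s‖ := norm_mul _ _
    _ ≤ (C * (1 + ‖s‖) ^ k) * (D * (1 + ‖s‖) ^ l) :=
        mul_le_mul (h1 s hs) (h2 s hs) (norm_nonneg _) (by positivity)
    _ = _ := by ring

lemma Tame.const (c : ℂ) : Tame (fun _ => c) :=
  ⟨differentiable_const c, fun x _ => ⟨‖c‖, 0, norm_nonneg c, fun s _ => by simp⟩⟩

lemma Tame.id : Tame (fun s => s) :=
  ⟨differentiable_id, fun x _ => ⟨1, 1, zero_le_one, fun s _ => by simp⟩⟩

lemma Tame.pow {f : ℂ → ℂ} (hf : Tame f) (n : ℕ) : Tame (fun s => f s ^ n) := by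
  induction n with
  | zero => simpa using Tame.const 1
  | succ n ih =>
    have h := ih.mul hf
    have e : (fun s => f s ^ (n + 1)) = fun s => f s ^ n * f s := by
      funext s; rw [pow_succ]
    rw [e]; exact h

lemma Tame.sub_one : Tame (fun s => s - 1) := by
  have h := Tame.id.add (Tame.const (-1))
  have e : (fun s : ℂ => s - 1) = fun s => s + (-1) := by funext s; ring
  rw [e]; exact h

lemma Tame.sum {ι : Type*} (S : Finset ι) {f : ι → ℂ → ℂ} (hf : ∀ i ∈ S, Tame (f i)) :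
    Tame (fun s => ∑ i ∈ S, f i s) := by
  classical
  induction S using Finset.induction_on with
  | empty => simpa using Tame.const 0
  | insert i S hi ih =>
    have e : (fun s => ∑ j ∈ insert i S, f j s) = fun s => f i s + ∑ j ∈ S, f j s := by
      funext s
      rw [Finset.sum_insert hi]
    rw [e]
    exact (hf i (Finset.mem_insert_self i S)).add (ih fun j hj => hf j (Finset.mem_insert_of_mem hj))

lemma Tame.deriv {f : ℂ → ℂ} (hf : Tame f) : Tame (deriv f) := by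
  refine ⟨fun s => ((hf.1.analyticAt s).deriv).differentiableAt, fun x hx => ?_⟩
  set δ : ℝ := (x - 1 / 4) / 2 with hδ
  have hδ0 : 0 < δ := by rw [hδ]; linarith
  obtain ⟨C, k, hC, h1⟩ := hf.2 (x - δ) (by rw [hδ]; linarith)
  refine ⟨C * (1 + δ) ^ k / δ, k, by positivity, fun s hs => ?_⟩
  have h2 := Complex.norm_deriv_le_of_forall_mem_sphere_norm_le (c := s) (R := δ)
    (C := C * ((1 + δ) * (1 + ‖s‖)) ^ k) (f := f) hδ0 hf.1.diffContOnCl (by
      intro z hz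
      rw [mem_sphere_iff_norm] at hz
      have h3 : |(z - s).re| ≤ δ := (Complex.abs_re_le_norm _).trans hz.le
      rw [Complex.sub_re] at h3
      have h4 := abs_le.1 h3
      refine (h1 z (by linarith)).trans ?_
      have h5 : ‖z‖ ≤ ‖s‖ + δ := by
        calc ‖z‖ = ‖s + (z - s)‖ := by congr 1; ring
          _ ≤ ‖s‖ + ‖z - s‖ := norm_add_le _ _
          _ ≤ _ := by linarith
      have h6 : 1 + ‖z‖ ≤ (1 + δ) * (1 + ‖s‖) := by
        nlinarith [norm_nonneg s, mul_nonneg hδ0.le (norm_nonneg s)]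
      gcongr)
  refine h2.trans (le_of_eq ?_)
  rw [mul_pow]
  ring

lemma tame_zeta₁ : Tame riemannZeta₁ := by
  refine ⟨differentiable_riemannZeta₁, fun x hx => ⟨9, 2, by norm_num, fun s hs => ?_⟩⟩
  rcases le_total s.re (1 / 2) with h | h
  · have h1 := Pool.Agent.H388LH.zeta_growth' (s := s) (by linarith) (by linarith)
    have hs1 : s ≠ 1 := by
      rintro rfl
      norm_num at h
    rw [Pool.Agent.H437R2.z1_of_ne hs1, norm_mul]
    have h2 : ‖s - 1‖ ≤ 1 + ‖s‖ := by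
      have := norm_sub_le s 1
      rw [norm_one] at this
      linarith
    have h3 : ‖riemannZeta s‖ ≤ 9 * (1 + ‖s‖) := by
      have := Complex.abs_im_le_norm s
      linarith
    calc ‖s - 1‖ * ‖riemannZeta s‖ ≤ (1 + ‖s‖) * (9 * (1 + ‖s‖)) := by gcongr
      _ = _ := by ring
  · have h1 := Pool.Agent.H437R2.z1_norm_le h
    refine h1.trans ?_
    have : (0:ℝ) ≤ (1 + ‖s‖) ^ 2 := by positivity
    have e : (‖s‖ + 1) ^ 2 = (1 + ‖s‖) ^ 2 := by ring
    nlinarith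

/-- the pole removed from the derivatives of `ζ` -/
lemma psi_exists (j : ℕ) : ∃ Ψ : ℂ → ℂ, Tame Ψ ∧
    ∀ s : ℂ, s ≠ 1 → Ψ s = (s - 1) ^ (j + 1) * iteratedDeriv j riemannZeta s := by
  induction j with
  | zero =>
    refine ⟨riemannZeta₁, tame_zeta₁, fun s hs => ?_⟩
    rw [Pool.Agent.H437R2.z1_of_ne hs]
    simp
  | succ j ih =>
    obtain ⟨Ψ, hΨ, h⟩ := ih
    refine ⟨fun s => (s - 1) * deriv Ψ s + (-((j : ℂ) + 1)) * Ψ s,
      (Tame.sub_one.mul hΨ.deriv).add ((Tame.const _).mul hΨ), fun s hs => ?_⟩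
    have hne : ({1}ᶜ : Set ℂ) ∈ 𝓝 s := isOpen_compl_singleton.mem_nhds hs
    have han : AnalyticAt ℂ riemannZeta s := by
      have : DifferentiableOn ℂ riemannZeta ({1}ᶜ : Set ℂ) := fun z hz =>
        (differentiableAt_riemannZeta hz).differentiableWithinAt
      exact this.analyticAt hne
    have h1 : Ψ =ᶠ[𝓝 s] fun s => (s - 1) ^ (j + 1) * iteratedDeriv j riemannZeta s := by
      filter_upwards [hne] with z hz
      exact h z hz
    have h2 := h1.deriv_eq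
    have h3 : HasDerivAt (fun s : ℂ => (s - 1) ^ (j + 1)) (((j + 1 : ℕ) : ℂ) * (s - 1) ^ j * 1) s := by
      have := ((hasDerivAt_id s).sub_const 1).fun_pow (j + 1)
      simpa using this
    have h4 := iter_hasDeriv han j
    have h5 := (h3.mul h4).deriv
    show (s - 1) * deriv Ψ s + -((j : ℂ) + 1) * Ψ s = _
    rw [h2]
    have e : (fun s : ℂ => (s - 1) ^ (j + 1) * iteratedDeriv j riemannZeta s) =
      (fun s : ℂ => (s - 1) ^ (j + 1)) * (iteratedDeriv j riemannZeta) := rfl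
    rw [e, h5, h s hs]
    push_cast
    ring

lemma psiP_exists (P : Polynomial ℂ) (a : ℂ) : ∃ Ψ : ℂ → ℂ, Tame Ψ ∧
    ∀ s : ℂ, s ≠ 1 → Ψ s = (s - 1) ^ (P.natDegree + 1) * (PD P riemannZeta s - a) := by
  choose Ψ h1 h2 using psi_exists
  refine ⟨fun s => (∑ j ∈ Finset.range (P.natDegree + 1), (P.coeff j * (s - 1) ^ (P.natDegree - j)) * Ψ j s) +
    (-a) * (s - 1) ^ (P.natDegree + 1), ?_, fun s hs => ?_⟩
  · refine (Tame.sum _ fun j _ => ?_).add ((Tame.const _).mul (Tame.sub_one.pow _))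
    exact ((Tame.const _).mul (Tame.sub_one.pow _)).mul (h1 j)
  · unfold PD
    have : ∀ j ∈ Finset.range (P.natDegree + 1), (P.coeff j * (s - 1) ^ (P.natDegree - j)) * Ψ j s =
        (s - 1) ^ (P.natDegree + 1) * (P.coeff j * iteratedDeriv j riemannZeta s) := by
      intro j hj
      have hj' : j ≤ P.natDegree := by
        have := Finset.mem_range.1 hj
        omega
      rw [h2 j s hs]
      have e : (s - 1) ^ (P.natDegree + 1) = (s - 1) ^ (P.natDegree - j) * (s - 1) ^ (j + 1) := by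
        rw [← pow_add]
        congr 1
        omega
      rw [e]
      ring
    show (∑ j ∈ Finset.range (P.natDegree + 1), (P.coeff j * (s - 1) ^ (P.natDegree - j)) * Ψ j s) +
      (-a) * (s - 1) ^ (P.natDegree + 1) = _
    rw [Finset.sum_congr rfl this, ← Finset.mul_sum]
    ring

/-- `((s - 1) / (s + 1))^(d + 1) (P(d/ds) ζ (s) - a)` without its pole -/
noncomputable def Ps (P : Polynomial ℂ) (a : ℂ) : ℂ → ℂ := (psiP_exists P a).choose

lemma Ps_tame (P : Polynomial ℂ) (a : ℂ) : Tame (Ps P a) := (psiP_exists P a).choose_spec.1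

lemma Ps_eq (P : Polynomial ℂ) (a : ℂ) {s : ℂ} (hs : s ≠ 1) :
    Ps P a s = (s - 1) ^ (P.natDegree + 1) * (PD P riemannZeta s - a) :=
  (psiP_exists P a).choose_spec.2 s hs

/-- the function to which the Poisson-Jensen inequality is applied -/
noncomputable def Ph (P : Polynomial ℂ) (a : ℂ) (g : ℂ → ℂ) (s : ℂ) : ℂ :=
  Ps P a s / (s + 1) ^ (P.natDegree + 1) * g s

lemma Ph_eq (P : Polynomial ℂ) (a : ℂ) (g : ℂ → ℂ) {s : ℂ} (hs : s ≠ 1) :
    Ph P a g s = (((s - 1) / (s + 1)) ^ (P.natDegree + 1) * g s) * (PD P riemannZeta s - a) := by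
  unfold Ph
  rw [Ps_eq P a hs, div_pow]
  ring

lemma Ph_le (P : Polynomial ℂ) (a : ℂ) (g : ℂ → ℂ) {s : ℂ} (hs : 0 ≤ s.re) (h1 : s ≠ 1) :
    ‖Ph P a g s‖ ≤ ‖(PD P riemannZeta s - a) * g s‖ := by
  rw [Ph_eq P a g h1, norm_mul, norm_mul, norm_mul, norm_pow, norm_div]
  have h2 : ‖s - 1‖ ≤ ‖s + 1‖ := by
    rw [Complex.norm_def, Complex.norm_def]
    apply Real.sqrt_le_sqrt
    simp only [Complex.normSq_apply, Complex.sub_re, Complex.one_re, Complex.sub_im,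
      Complex.one_im, Complex.add_re, Complex.add_im]
    nlinarith
  have h3 : 0 < ‖s + 1‖ := norm_pos_iff.2 (Pool.Agent.H983R4.LH.add_one_ne (by linarith))
  have h4 : (‖s - 1‖ / ‖s + 1‖) ^ (P.natDegree + 1) ≤ 1 := by
    apply pow_le_one₀ (by positivity)
    rw [div_le_one h3]; exact h2
  calc (‖s - 1‖ / ‖s + 1‖) ^ (P.natDegree + 1) * ‖g s‖ * ‖PD P riemannZeta s - a‖ ≤
      1 * ‖g s‖ * ‖PD P riemannZeta s - a‖ := by gcongr
    _ = _ := by ring

/-- far from `1` the function is not much smaller -/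
lemma Ph_ge (P : Polynomial ℂ) (a : ℂ) (g : ℂ → ℂ) {s : ℂ} (hs : 0 ≤ s.re) (h1 : 1 ≤ ‖s - 1‖) :
    (1 / 3) ^ (P.natDegree + 1) * (‖g s‖ * ‖PD P riemannZeta s - a‖) ≤ ‖Ph P a g s‖ := by
  have h0 : s ≠ 1 := by
    rintro rfl
    simp at h1
    linarith
  rw [Ph_eq P a g h0, norm_mul, norm_mul, norm_pow, norm_div]
  have h3 : 0 < ‖s + 1‖ := norm_pos_iff.2 (Pool.Agent.H983R4.LH.add_one_ne (by linarith))
  have h2 : ‖s + 1‖ ≤ 3 * ‖s - 1‖ := by
    have : s + 1 = (s - 1) + 2 := by ring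
    rw [this]
    refine (norm_add_le _ _).trans ?_
    have : ‖(2:ℂ)‖ = 2 := by simp
    rw [this]
    linarith
  have h4 : 1 / 3 ≤ ‖s - 1‖ / ‖s + 1‖ := by
    rw [le_div_iff₀ h3]; linarith
  calc (1 / 3) ^ (P.natDegree + 1) * (‖g s‖ * ‖PD P riemannZeta s - a‖) ≤
      (‖s - 1‖ / ‖s + 1‖) ^ (P.natDegree + 1) * (‖g s‖ * ‖PD P riemannZeta s - a‖) := by gcongr
    _ = _ := by ring

lemma Ph_an (P : Polynomial ℂ) (a : ℂ) {g : ℂ → ℂ} {s : ℂ} (hs : 0 ≤ s.re) (hg : AnalyticAt ℂ g s) :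
    AnalyticAt ℂ (Ph P a g) s := by
  have h1 : AnalyticAt ℂ (Ps P a) s := (Ps_tame P a).1.analyticAt s
  have h2 : AnalyticAt ℂ (fun s : ℂ => (s + 1) ^ (P.natDegree + 1)) s := by fun_prop
  have h3 : (s + 1) ^ (P.natDegree + 1) ≠ 0 :=
    pow_ne_zero _ (Pool.Agent.H983R4.LH.add_one_ne (by linarith))
  exact (h1.div h2 h3).mul hg

/-- the multiplicities do not get smaller -/
lemma Ph_mult (P : Polynomial ℂ) (a : ℂ) {g : ℂ → ℂ} {s : ℂ} (hs : 0 ≤ s.re) (h1 : s ≠ 1)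
    (hg : AnalyticAt ℂ g s) (hfin : analyticOrderAt (Ph P a g) s ≠ ⊤) :
    mult (fun z => PD P riemannZeta z - a) s ≤ mult (Ph P a g) s := by
  have hne : ({1}ᶜ : Set ℂ) ∈ 𝓝 s := isOpen_compl_singleton.mem_nhds h1
  have han : AnalyticAt ℂ riemannZeta s := by
    have : DifferentiableOn ℂ riemannZeta ({1}ᶜ : Set ℂ) := fun z hz =>
      (differentiableAt_riemannZeta hz).differentiableWithinAt
    exact this.analyticAt hne
  have h2 : AnalyticAt ℂ (fun s : ℂ => ((s - 1) / (s + 1)) ^ (P.natDegree + 1) * g s) s := by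
    refine AnalyticAt.mul (AnalyticAt.pow ?_ _) hg
    refine AnalyticAt.div (by fun_prop) (by fun_prop) (Pool.Agent.H983R4.LH.add_one_ne (by linarith))
  have h3 : AnalyticAt ℂ (fun z => PD P riemannZeta z - a) s := (PD_analytic P han).sub analyticAt_const
  have h4 : Ph P a g =ᶠ[𝓝 s] (fun s : ℂ => ((s - 1) / (s + 1)) ^ (P.natDegree + 1) * g s) *
      (fun z => PD P riemannZeta z - a) := by
    filter_upwards [hne] with z hz
    exact Ph_eq P a g hz
  unfold mult analyticOrderNatAt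
  apply ENat.toNat_le_toNat _ hfin
  rw [analyticOrderAt_congr h4, analyticOrderAt_mul h2 h3]
  exact le_add_self

end Pool.Agent.V7H52.GM
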