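import Pool.Agent.V7H52.GM.D

/-!
The local law: a large value of zeta forces large geometric means nearby.
-/

set_option autoImplicit false
open MeasureTheory Filter Topology Set Real

namespace Pool.Agent.V7H52.GM

open Pool.Agent.V7H88.BS H370 LSeries Pool.Agent.H983R4.LH

/-- the first coefficient dominates, uniformly -/
lemma dominate_unif {f : ℕ → ℂ} (hf : abscissaOfAbsConv f < ⊤) (h0 : f 0 = 0) (hne : ∃ n, f n ≠ 0) :
    ∃ σ₀ : ℝ, ∀ σ₁ : ℝ, ∃ m : ℝ, 0 < m ∧ ∀ s : ℂ, σ₀ ≤ s.re → s.re ≤ σ₁ → m ≤ ‖LSeries f s‖ := by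
  classical
  set N := Nat.find hne with hN
  have hN1 : f N ≠ 0 := Nat.find_spec hne
  have hN2 : ∀ k < N, f k = 0 := fun k hk => by
    by_contra h
    exact Nat.find_min hne hk h
  obtain ⟨n, hn⟩ : ∃ n, N = n + 1 := by
    rcases Nat.exists_eq_succ_of_ne_zero (n := N) (by intro h; rw [h] at hN1; exact hN1 h0) with ⟨n, hn⟩
    exact ⟨n, hn⟩
  let g : ℕ → ℂ := fun k => if n + 1 < k then ((‖f k‖ : ℝ) : ℂ) else 0
  have hgf : ∀ k, ‖g k‖ ≤ ‖f k‖ := by
    intro k
    simp only [g]
    split_ifs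
    · rw [Complex.norm_real, norm_norm]
    · rw [norm_zero]; exact norm_nonneg _
  have hgsum : ∀ s : ℂ, LSeriesSummable f s → LSeriesSummable g s := by
    intro s hs
    refine Summable.of_norm_bounded hs.norm fun k => ?_
    rw [LSeries.norm_term_eq, LSeries.norm_term_eq]
    split_ifs
    · exact le_rfl
    · have := hgf k
      gcongr
  have hg : abscissaOfAbsConv g < ⊤ := by
    refine lt_of_le_of_lt ?_ hf
    refine LSeries.abscissaOfAbsConv_le_of_forall_lt_LSeriesSummable' fun y hy => ?_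
    exact hgsum _ (LSeriesSummable_of_abscissaOfAbsConv_lt_re (by simpa using hy))
  have ht := LSeries.tendsto_cpow_mul_atTop (f := g) (n := n) (fun m hm => by
    simp only [g]; rw [if_neg (by omega)]) hg
  have hg1 : g (n + 1) = 0 := by simp [g]
  rw [hg1] at ht
  have ht2 := (tendsto_zero_iff_norm_tendsto_zero.1 ht).eventually
    (gt_mem_nhds (show 0 < ‖f N‖ / 2 by have := norm_pos_iff.2 hN1; linarith))
  obtain ⟨y, hy1, hy2⟩ := exists_between hf
  lift y to ℝ using ⟨hy2.ne, ((OrderBot.bot_le _).trans_lt hy1).ne'⟩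
  obtain ⟨σ₀, hσ₀⟩ := eventually_atTop.1 (ht2.and (eventually_ge_atTop y))
  have hn0 : (0:ℝ) < (n:ℝ) + 1 := by positivity
  have hn01 : (1:ℝ) ≤ (n:ℝ) + 1 := by
    have : (0:ℝ) ≤ n := Nat.cast_nonneg n
    linarith
  refine ⟨σ₀, fun σ₁ => ⟨‖f N‖ / 2 / ((n:ℝ) + 1) ^ σ₁, by
    have := norm_pos_iff.2 hN1
    positivity, fun s hs0 hs1 => ?_⟩⟩
  set σ : ℝ := s.re with hσd
  obtain ⟨hσ1, hσ3⟩ := hσ₀ σ hs0
  have hs : s.re = σ := rfl
  have hn1 : ‖((n : ℂ) + 1) ^ (σ : ℂ)‖ = ((n:ℝ) + 1) ^ σ := by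
    have : ((n : ℂ) + 1) = (((n:ℝ) + 1 : ℝ) : ℂ) := by push_cast; rfl
    rw [this, Complex.norm_cpow_eq_rpow_re_of_pos hn0, Complex.ofReal_re]
  have hfin : ‖f N‖ / 2 / ((n:ℝ) + 1) ^ σ₁ ≤ ‖f N‖ / 2 / ((n:ℝ) + 1) ^ σ := by
    have : ((n:ℝ) + 1) ^ σ ≤ ((n:ℝ) + 1) ^ σ₁ := Real.rpow_le_rpow_of_exponent_le hn01 hs1
    gcongr
  refine hfin.trans ?_
  have hsf : LSeriesSummable f s := LSeriesSummable_of_abscissaOfAbsConv_lt_re (by
    rw [hs]; exact lt_of_lt_of_le hy1 (by exact_mod_cast hσ3))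
  have hsσ : LSeriesSummable f σ := LSeriesSummable_of_abscissaOfAbsConv_lt_re (by
    rw [Complex.ofReal_re]; exact lt_of_lt_of_le hy1 (by exact_mod_cast hσ3))
  have hgσ : LSeriesSummable g σ := hgsum _ hsσ
  have e1 : LSeries f s = term f s N + ∑' k, ite (k = N) 0 (term f s k) := by
    unfold LSeries
    exact hsf.tsum_eq_add_tsum_ite N
  have e2 : ‖term f s N‖ = ‖f N‖ / ((n:ℝ) + 1) ^ σ := by
    rw [LSeries.norm_term_eq, if_neg (by rw [hn]; omega), hs, hn]
    push_cast
    rfl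
  have e3 : ∀ k, ‖ite (k = N) 0 (term f s k)‖ ≤ (term g σ k).re := by
    intro k
    rcases lt_trichotomy k N with h | h | h
    · rw [if_neg h.ne]
      have hfk := hN2 k h
      have : term f s k = 0 := by
        rcases Nat.eq_zero_or_pos k with h' | h'
        · rw [h', LSeries.term_zero]
        · rw [LSeries.term_of_ne_zero (by omega), hfk, zero_div]
      rw [this, norm_zero]
      have h2 : g k = 0 := by simp only [g]; rw [if_neg (by omega)]
      have : term g σ k = 0 := by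
        rcases Nat.eq_zero_or_pos k with h' | h'
        · rw [h', LSeries.term_zero]
        · rw [LSeries.term_of_ne_zero (by omega), h2, zero_div]
      rw [this]
      simp
    · rw [if_pos h, norm_zero]
      have h2 : g k = 0 := by simp only [g]; rw [if_neg (by omega)]
      have : term g σ k = 0 := by
        rcases Nat.eq_zero_or_pos k with h' | h'
        · rw [h', LSeries.term_zero]
        · rw [LSeries.term_of_ne_zero (by omega), h2, zero_div]
      rw [this]
      simp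
    · rw [if_neg h.ne', LSeries.norm_term_eq, if_neg (by omega), hs,
        LSeries.term_of_ne_zero (by omega)]
      have h2 : g k = ((‖f k‖ : ℝ) : ℂ) := by simp only [g]; rw [if_pos (by omega)]
      have h3 : (k : ℂ) ^ (σ : ℂ) = (((k:ℝ) ^ σ : ℝ) : ℂ) := by
        rw [Complex.ofReal_cpow (by positivity)]
        push_cast
        rfl
      rw [h2, h3, ← Complex.ofReal_div, Complex.ofReal_re]
  have hsre : Summable fun k => (term g σ k).re := Complex.reCLM.summable hgσ
  have e4 : ‖∑' k, ite (k = N) 0 (term f s k)‖ ≤ ∑' k, (term g σ k).re :=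
    tsum_of_norm_bounded hsre.hasSum e3
  have e5 : ∑' k, (term g σ k).re ≤ ‖LSeries g σ‖ := by
    have : ∑' k, (term g σ k).re = (LSeries g σ).re := by
      unfold LSeries
      exact (Complex.re_tsum hgσ).symm
    rw [this]
    exact Complex.re_le_norm _
  have e6 : ‖LSeries g σ‖ ≤ ‖f N‖ / 2 / ((n:ℝ) + 1) ^ σ := by
    have h7 := hσ1.le
    rw [norm_mul, hn1] at h7
    rw [le_div_iff₀ (by positivity)]
    linarith
  have e7 : ‖term f s N‖ ≤ ‖LSeries f s‖ + ‖∑' k, ite (k = N) 0 (term f s k)‖ := by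
    have : term f s N = LSeries f s - ∑' k, ite (k = N) 0 (term f s k) := by rw [e1]; ring
    rw [this]
    exact norm_sub_le _ _
  rw [e2] at e7
  have e8 : ‖f N‖ / ((n:ℝ) + 1) ^ σ = ‖f N‖ / 2 / ((n:ℝ) + 1) ^ σ + ‖f N‖ / 2 / ((n:ℝ) + 1) ^ σ := by ring
  linarith

/-- `P(d/ds) ζ - a` is not small far to the right -/
lemma far (P : Polynomial ℂ) (hP : P ≠ 0) (a : ℂ) : ∃ σ₀ : ℝ, ∀ σ₁ : ℝ, ∃ m : ℝ, 0 < m ∧
    ∀ s : ℂ, σ₀ ≤ s.re → s.re ≤ σ₁ → m ≤ ‖PD P riemannZeta s - a‖ := by
  set f : ℕ → ℂ := fun n => if n = 0 then 0 else bb P n - (if n = 1 then a else 0) with hf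
  have hfs : ∀ s : ℂ, 1 < s.re → LSeriesSummable f s ∧ LSeries f s = PD P riemannZeta s - a := by
    intro s hs
    have h1 := bb_summable P hs
    have hδ : (fun n : ℕ => if n = 1 then a else 0) = a • LSeries.delta := by
      funext n
      simp [LSeries.delta]
    have h2 : LSeriesSummable (fun n : ℕ => if n = 1 then a else 0) s := by
      rw [hδ]
      refine LSeriesSummable.smul a ?_
      exact summable_of_ne_finset_zero (s := {1}) fun n hn => by
        rw [Finset.mem_singleton] at hn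
        rcases Nat.eq_zero_or_pos n with h | h
        · rw [h, LSeries.term_zero]
        · rw [LSeries.term_of_ne_zero (by omega)]
          simp [LSeries.delta, hn]
    have h3 : LSeriesSummable f s := by
      refine (LSeriesSummable_congr s (g := (bb P) - fun n : ℕ => if n = 1 then a else 0) ?_).2 (h1.sub h2)
      intro n hn
      simp [hf, hn]
    refine ⟨h3, ?_⟩
    have h4 : LSeries f s = LSeries ((bb P) - fun n : ℕ => if n = 1 then a else 0) s := by
      apply LSeries_congr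
      intro n hn
      simp [hf, hn]
    rw [h4, LSeries_sub h1 h2, hδ, LSeries_smul, LSeries_delta, PD_zeta P hs]
    simp
  have hab : abscissaOfAbsConv f < ⊤ := by
    refine lt_of_le_of_lt (LSeries.abscissaOfAbsConv_le_of_forall_lt_LSeriesSummable (x := 1)
      fun y hy => (hfs _ (by simpa using hy)).1) ?_
    exact_mod_cast EReal.coe_lt_top 1
  have hne : ∃ n, f n ≠ 0 := by
    by_contra hcon
    push Not at hcon
    apply hP
    refine Polynomial.eq_zero_of_infinite_isRoot P ?_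
    have hinj : Function.Injective (fun n : ℕ => -Complex.log ((n + 2 : ℕ) : ℂ)) := by
      intro a b hab
      have h1 : Complex.log ((a + 2 : ℕ) : ℂ) = Complex.log ((b + 2 : ℕ) : ℂ) := neg_injective hab
      have h2 : ((a + 2 : ℕ) : ℂ) = ((b + 2 : ℕ) : ℂ) := by
        have := congrArg Complex.exp h1
        rwa [Complex.exp_log (by exact_mod_cast (by omega : a + 2 ≠ 0)),
          Complex.exp_log (by exact_mod_cast (by omega : b + 2 ≠ 0))] at this
      have h3 : a + 2 = b + 2 := by exact_mod_cast h2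
      omega
    refine (Set.infinite_range_of_injective hinj).mono ?_
    rintro z ⟨n, rfl⟩
    have h1 := hcon (n + 2)
    simp only [hf] at h1
    rw [if_neg (by omega), if_neg (by omega), sub_zero] at h1
    exact h1
  obtain ⟨σ₀, h⟩ := dominate_unif hab (by simp [hf]) hne
  refine ⟨max σ₀ 2, fun σ₁ => ?_⟩
  obtain ⟨m, hm, hm'⟩ := h σ₁
  refine ⟨m, hm, fun s h1 h2 => ?_⟩
  rw [← (hfs s (by linarith [(le_max_right σ₀ 2).trans h1])).2]
  exact hm' s ((le_max_left _ _).trans h1) h2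

end Pool.Agent.V7H52.GM
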