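import Pool.Agent.V7H52.GM.E

/-!
The local law: a large value of zeta forces large geometric means nearby.
-/

set_option autoImplicit false
set_option maxHeartbeats 4000000
open MeasureTheory Filter Topology Set Real

namespace Pool.Agent.V7H52.GM

open Pool.Agent.V7H88.BS H370 Pool.Agent.H983R4.LH

/-- multipliers at the height `T` -/
structure Mul (B σ₀ R η T : ℝ) (g : ℂ → ℂ) : Prop where
  an : ∀ s : ℂ, 1 / 2 ≤ s.re → AnalyticAt ℂ g s
  up : ∀ s : ℂ, 1 / 2 ≤ s.re → ‖g s‖ ≤ (T + ‖s‖) ^ B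
  low : ∀ s : ℂ, σ₀ ≤ s.re → |s.im - T| ≤ R → T ^ (-η) ≤ ‖g s‖

lemma posLog_pow_le {x : ℝ} (hx : 0 ≤ x) (k : ℕ) : log⁺ ((1 + x) ^ k) = k * Real.log (x + 1) := by
  have h1 : (1:ℝ) ≤ (1 + x) ^ k := one_le_pow₀ (by linarith)
  rw [posLog_eq_log (by rw [abs_of_nonneg (by linarith)]; exact h1), Real.log_pow, add_comm 1 x]

lemma Ph_dat (P : Polynomial ℂ) (a : ℂ) : ∃ (A₀ : ℝ) (k : ℕ), 0 ≤ A₀ ∧ ∀ (B σ₀ R η T : ℝ) (g : ℂ → ℂ),
    0 ≤ B → 1 ≤ T → Mul B σ₀ R η T g → Dat (Ph P a g) (A₀ + B * Real.log T) (k + B) := by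
  obtain ⟨C, k, hC, h⟩ := (Ps_tame P a).2 (1 / 2) (by norm_num)
  refine ⟨log⁺ C, k, posLog_nonneg, fun B σ₀ R η T g hB hT hg => ?_⟩
  have hL : 0 ≤ Real.log T := Real.log_nonneg hT
  refine ⟨fun s hs => Ph_an P a (by linarith) (hg.an s hs), ?_, by positivity, fun s hs => ?_⟩
  · have : 0 ≤ log⁺ C := posLog_nonneg
    positivity
  have hn : 0 ≤ ‖s‖ := norm_nonneg s
  have h1 : ‖Ph P a g s‖ ≤ (C * (1 + ‖s‖) ^ k) * (T + ‖s‖) ^ B := by
    unfold Ph
    rw [norm_mul, norm_div, norm_pow]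
    have h2 : 1 ≤ ‖s + 1‖ ^ (P.natDegree + 1) := by
      apply one_le_pow₀
      have := Complex.abs_re_le_norm (s + 1)
      rw [Complex.add_re, Complex.one_re] at this
      have h3 := le_abs_self (s.re + 1)
      linarith
    have h3 : ‖Ps P a s‖ / ‖s + 1‖ ^ (P.natDegree + 1) ≤ C * (1 + ‖s‖) ^ k :=
      (div_le_self (norm_nonneg _) h2).trans (h s hs)
    exact mul_le_mul h3 (hg.up s hs) (norm_nonneg _) (by positivity)
  have h4 := posLog_le_posLog (norm_nonneg _) h1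
  have h5 : log⁺ ((C * (1 + ‖s‖) ^ k) * (T + ‖s‖) ^ B) ≤ log⁺ C + log⁺ ((1 + ‖s‖) ^ k) + log⁺ ((T + ‖s‖) ^ B) := by
    refine posLog_mul.trans ?_
    have := posLog_mul (x := C) (y := (1 + ‖s‖) ^ k)
    linarith
  have h6 : log⁺ ((T + ‖s‖) ^ B) ≤ B * Real.log T + B * Real.log (‖s‖ + 1) := by
    have h7 : 1 ≤ (T + ‖s‖) ^ B := Real.one_le_rpow (by linarith) hB
    rw [posLog_eq_log (by rw [abs_of_nonneg (by linarith)]; exact h7), Real.log_rpow (by linarith), ← mul_add,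
      ← Real.log_mul (by linarith) (by linarith)]
    have h8 : Real.log (T + ‖s‖) ≤ Real.log (T * (‖s‖ + 1)) := by
      apply Real.log_le_log (by linarith)
      nlinarith
    exact mul_le_mul_of_nonneg_left h8 hB
  rw [posLog_pow_le hn] at h5
  have : ((k : ℝ) + B) * Real.log (‖s‖ + 1) = k * Real.log (‖s‖ + 1) + B * Real.log (‖s‖ + 1) := by ring
  linarith

lemma log_shift {T R : ℝ} (hT : 1 ≤ T) (hR : 0 ≤ R) : Real.log (3 / 2 + |T| + R) ≤ Real.log (5 / 2 + R) + Real.log T := by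
  rw [← Real.log_mul (by positivity) (by linarith), abs_of_nonneg (by linarith)]
  apply Real.log_le_log (by positivity)
  nlinarith

/-- **the local law** -/
theorem local_law (P : Polynomial ℂ) (hP : P ≠ 0) (a₀ : ℂ) {ρ : Measure ℂ} [IsProbabilityMeasure ρ] {R : ℝ}
    (hR : 0 ≤ R) (hρ : Car ρ R) (hδ : ∀ δ : ℝ, 0 < δ → 0 < ρ {z : ℂ | z.re < δ}) {κ B : ℝ} (σ₀ : ℝ)
    (hκ : 0 < κ) (hB : 0 ≤ B) :
    ∃ η H : ℝ, 0 < η ∧ 0 < H ∧ ∀ᶠ T : ℝ in atTop, T ^ κ ≤ ‖riemannZeta ⟨1 / 2, T⟩‖ →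
      ∀ g : ℂ → ℂ, Mul B σ₀ R η T g → ∀ M : ℝ, 0 ≤ M →
        ENNReal.ofReal η ≤ volume {t : ℝ | |t - T| ≤ H ∧ η * Real.log T ≤ LM ρ (Ph P a₀ g) M t} := by
  classical
  have hpi := Real.pi_pos
  obtain ⟨η₁, hη₁, hη₁1, hmany⟩ := right_many P hP hκ
  obtain ⟨σ₂, hfar⟩ := far P hP a₀
  obtain ⟨A₀, k, hA₀, hdat⟩ := Ph_dat P a₀
  set a : ℝ := max (max σ₀ σ₂) 3 with had
  have ha3 : 3 ≤ a := le_max_right _ _
  have haσ₀ : σ₀ ≤ a := (le_max_left _ _).trans (le_max_left _ _)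
  have haσ₂ : σ₂ ≤ a := (le_max_right _ _).trans (le_max_left _ _)
  have ha : 0 < a := by linarith
  obtain ⟨m, hm, hfar'⟩ := hfar (1 / 2 + a + R)
  have hη₁' : 1 ≤ 1 / η₁ := by rw [le_div_iff₀ hη₁]; linarith
  set D : ℝ := 2 / η₁ + a + R with hD
  have hD0 : 0 < D := by positivity
  set r : ℝ := Real.sqrt (max (1 - 4 * a * (η₁ / 2) / D ^ 2) (1 / 4)) with hr
  have hrpos : 0 < max (1 - 4 * a * (η₁ / 2) / D ^ 2) (1 / 4) := lt_max_of_lt_right (by norm_num)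
  have hr0 : 0 < r := Real.sqrt_pos.2 hrpos
  have hr1 : r < 1 := by
    rw [hr, Real.sqrt_lt' one_pos]
    have : 0 < 4 * a * (η₁ / 2) / D ^ 2 := by positivity
    apply max_lt <;> norm_num
    linarith
  set Λ₁ : ℝ := Real.log (1 / r) with hΛ₁
  have hΛ₁0 : 0 < Λ₁ := Real.log_pos (by rw [lt_div_iff₀ hr0]; linarith)
  set p : ℝ := (ρ {z : ℂ | z.re < η₁ / 2}).toReal with hp
  have hp0 : 0 < p := ENNReal.toReal_pos (hδ _ (by linarith)).ne' (measure_ne_top _ _)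
  set δ₂ : ℝ := p * η₁ * Λ₁ with hδ₂
  have hδ₂0 : 0 < δ₂ := by positivity
  set C₂ : ℝ := A₀ + (k + B) * (Real.log (5 / 2 + R) + Real.log (1 + a)) with hC₂
  have hC₂0 : 0 ≤ C₂ := by
    have h1 : 0 ≤ Real.log (5 / 2 + R) := Real.log_nonneg (by linarith)
    have h2 : 0 ≤ Real.log (1 + a) := Real.log_nonneg (by linarith)
    positivity
  set C₃ : ℝ := k + 2 * B with hC₃
  have hC₃0 : 0 ≤ C₃ := by positivity
  have hC0 := C0_nonneg
  set Λ : ℝ := 1 + 8 * (C₃ * C0) / (2 * π * δ₂) with hΛ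
  have hΛ0 : 0 < Λ := by positivity
  have hΛbd : C₃ * C0 / (2 * π * Λ) ≤ δ₂ / 8 := by
    rw [div_le_iff₀ (by positivity)]
    have : δ₂ / 8 * (2 * π * Λ) = δ₂ / 8 * (2 * π) + C₃ * C0 := by
      rw [hΛ]
      field_simp
    rw [this]
    have : 0 ≤ δ₂ / 8 * (2 * π) := by positivity
    linarith
  set H : ℝ := a * (Real.exp Λ - 1) with hH
  have hH0 : 0 < H := by
    have : 1 < Real.exp Λ := Real.one_lt_exp_iff.2 hΛ0
    exact mul_pos ha (by linarith)
  have hHΛ : Real.log (1 + H / a) = Λ := by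
    have : 1 + H / a = Real.exp Λ := by rw [hH]; field_simp; ring
    rw [this, Real.log_exp]
  set η : ℝ := δ₂ / (4 * (2 + C₃ / (π * a))) with hη
  have hη0 : 0 < η := by positivity
  have hηbd : 2 * η + η * C₃ / (π * a) = δ₂ / 4 := by
    rw [hη]
    have : 0 < 2 + C₃ / (π * a) := by positivity
    field_simp
  set K : ℝ := η * C₂ / (π * a) + (C₂ / Λ + (k + B)) * C0 / (2 * π) - Real.log ((1 / 3) ^ (P.natDegree + 1) * m) with hK
  refine ⟨η, H, hη0, hH0, ?_⟩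
  filter_upwards [hmany, eventually_ge_atTop (1 / η₁ + R + 2), ev_log (2 * |K| / δ₂ + 1), ev_rpow ‖a₀‖ hη₁]
    with T hmT hT1 hTL hTa hbig g hg M hM
  have hT : 1 ≤ T := by linarith
  have hT0 : 0 < T := by linarith
  set L : ℝ := Real.log T with hL
  have hL0 : 0 ≤ L := Real.log_nonneg hT
  obtain ⟨S, hS, hScard⟩ := hmT hbig a₀ hTa
  have Hd := hdat B σ₀ R η T g hB hT hg
  by_contra hcon
  push Not at hcon
  set E : ℝ := C₂ + C₃ * L with hE
  have hE0 : 0 ≤ E := by positivity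
  have hmb := mean_bound (m := LM ρ (Ph P a₀ g) M) (a := a) (T := T) (H := H) (q := η * L) (E := E)
    (G := k + B) (v := η) ha hH0 (by positivity) hE0 (by positivity) hη0.le (by
      intro θ
      refine (Hd.LM_le hρ hM _).trans ?_
      have h1 := log_ct (T := T) ha hR θ
      have h2 := log_shift hT hR
      have h3 : Real.log (3 / 2 + |T + a * ct θ| + R) ≤
        Real.log (5 / 2 + R) + Real.log T + Real.log (1 + a) + ps θ := by linarith
      have h4 := mul_le_mul_of_nonneg_left h3 Hd.hB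
      rw [hE, hC₂, hC₃]
      linarith) hcon.le
  rw [hHΛ] at hmb
  have hpt : ∀ z : ℂ, 0 ≤ z.re → ‖z‖ ≤ R → Ph P a₀ g (1 / 2 + a + T * Complex.I + z) ≠ 0 ∧
      Real.log ((1 / 3) ^ (P.natDegree + 1) * m) - η * L ≤ Real.log ‖Ph P a₀ g (1 / 2 + a + T * Complex.I + z)‖ := by
    intro z hz hzR
    set s : ℂ := 1 / 2 + a + T * Complex.I + z with hs
    have hre : s.re = 1 / 2 + a + z.re := by rw [hs]; simp
    have him : s.im = T + z.im := by rw [hs]; simp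
    have hzr : z.re ≤ R := (le_abs_self _).trans ((Complex.abs_re_le_norm z).trans hzR)
    have hzi : |z.im| ≤ R := (Complex.abs_im_le_norm z).trans hzR
    have h1 := hfar' s (by linarith) (by linarith)
    have h2 := hg.low s (by linarith) (by rw [him, add_sub_cancel_left]; exact hzi)
    have h3 := Ph_ge P a₀ g (s := s) (by linarith) (by
      have := Complex.abs_re_le_norm (s - 1)
      rw [Complex.sub_re, Complex.one_re] at this
      have := le_abs_self (s.re - 1)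
      linarith)
    have h4 : (1 / 3) ^ (P.natDegree + 1) * (T ^ (-η) * m) ≤ ‖Ph P a₀ g s‖ := by
      refine le_trans ?_ h3
      have : 0 ≤ T ^ (-η) := by positivity
      gcongr
    have h5 : 0 < (1 / 3 : ℝ) ^ (P.natDegree + 1) * (T ^ (-η) * m) := by positivity
    refine ⟨norm_pos_iff.1 (lt_of_lt_of_le h5 h4), ?_⟩
    have h6 := Real.log_le_log h5 h4
    have h7 : Real.log ((1 / 3 : ℝ) ^ (P.natDegree + 1) * (T ^ (-η) * m)) =
        Real.log ((1 / 3) ^ (P.natDegree + 1) * m) - η * L := by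
      rw [show (1 / 3 : ℝ) ^ (P.natDegree + 1) * (T ^ (-η) * m) = T ^ (-η) * ((1 / 3) ^ (P.natDegree + 1) * m) by ring,
        Real.log_mul (by positivity) (by positivity), Real.log_rpow hT0]
      ring
    rw [h7] at h6
    exact h6
  have hS' : ∀ z : ℂ, 0 ≤ z.re → ‖z‖ ≤ R → z.re < η₁ / 2 → ∀ s ∈ S,
      1 / 2 < (s - z).re ∧ ‖Pinv a T (s - z)‖ ≤ r := by
    intro z hz hzR hzη s hs
    obtain ⟨h1, h2, h3, -⟩ := hS s hs
    have h4 : 1 / 2 + η₁ / 2 ≤ (s - z).re := by rw [Complex.sub_re]; linarith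
    refine ⟨by linarith, ?_⟩
    have h5 : ‖(s - z) - 1 / 2 - T * Complex.I + a‖ ≤ D := by
      have e : (s - z) - 1 / 2 - T * Complex.I + a = (s - 1 / 2 - T * Complex.I + a) - z := by ring
      rw [e]
      refine (norm_sub_le _ _).trans ?_
      have h6 := Complex.norm_le_abs_re_add_abs_im (s - 1 / 2 - T * Complex.I + a)
      have e1 : (s - 1 / 2 - T * Complex.I + a).re = s.re - 1 / 2 + a := by simp
      have e2 : (s - 1 / 2 - T * Complex.I + a).im = s.im - T := by simp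
      rw [e1, e2, abs_of_nonneg (by linarith)] at h6
      have : 2 / η₁ = 1 / η₁ + 1 / η₁ := by ring
      rw [hD]
      linarith
    have h6 := Pinv_norm (t := T) (s := s - z) ha (show 0 < η₁ / 2 by linarith) h4 h5
    have h7 : ‖Pinv a T (s - z)‖ ^ 2 ≤ r ^ 2 := by
      rw [hr, Real.sq_sqrt hrpos.le]
      exact h6.trans (le_max_left _ _)
    exact (sq_le_sq₀ (norm_nonneg _) hr0.le).1 h7
  have hint := integrated Hd hρ hR ha hM T hpt hr0 hr1 S hS'
  -- the number of the zeros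
  have hN : η₁ * L ≤ ∑ s ∈ S, (mult (Ph P a₀ g) s : ℝ) := by
    refine hScard.trans (Finset.sum_le_sum fun s hs => ?_)
    obtain ⟨h1, h2, h3, -⟩ := hS s hs
    have h3' := abs_le.1 h3
    have hs1 : s ≠ 1 := by
      rintro rfl
      rw [Complex.one_im] at h3'
      linarith
    have hconv : IsPreconnected {s : ℂ | 1 / 2 ≤ s.re} :=
      (convex_halfSpace_re_ge (1 / 2)).isPreconnected
    have hfin := H370.Loc.order_ne_top (f := Ph P a₀ g) (K := {s : ℂ | 1 / 2 ≤ s.re}) hconv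
      (fun z hz => Hd.an z hz) (c := 1 / 2 + a + T * Complex.I + 0) (z := s) (by
        show 1 / 2 ≤ (1 / 2 + (a : ℂ) + T * Complex.I + 0).re
        simp
        linarith) (hpt 0 (by simp) (by simpa using hR)).1 (by
        show 1 / 2 ≤ s.re
        linarith)
    have := Ph_mult P a₀ (g := g) (s := s) (by linarith) hs1 (hg.an s (by linarith)) hfin
    exact_mod_cast this
  have hN2 : δ₂ * L ≤ p * ((∑ s ∈ S, (mult (Ph P a₀ g) s : ℝ)) * Λ₁) := by
    have : δ₂ * L = p * ((η₁ * L) * Λ₁) := by rw [hδ₂]; ring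
    rw [this]
    gcongr
  have h1 : Real.log ((1 / 3) ^ (P.natDegree + 1) * m) - η * L + δ₂ * L ≤
      (2 * π)⁻¹ * (2 * π * (η * L) + 2 / a * η * E + (E / Λ + (k + B)) * C0) := by
    have h2 : (2 * π)⁻¹ * (∫ θ, LM ρ (Ph P a₀ g) M (T + a * ct θ) ∂νθ) ≤
      (2 * π)⁻¹ * (2 * π * (η * L) + 2 / a * η * E + (E / Λ + (k + B)) * C0) :=
      mul_le_mul_of_nonneg_left hmb (by positivity)
    linarith
  have e : (2 * π)⁻¹ * (2 * π * (η * L) + 2 / a * η * E + (E / Λ + (k + B)) * C0) =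
      η * L + η * C₂ / (π * a) + η * C₃ / (π * a) * L + (C₂ / Λ + (k + B)) * C0 / (2 * π) +
        C₃ * C0 / (2 * π * Λ) * L := by
    rw [hE]
    field_simp
    ring
  rw [e] at h1
  have h3 : C₃ * C0 / (2 * π * Λ) * L ≤ δ₂ / 8 * L := mul_le_mul_of_nonneg_right hΛbd hL0
  have h4 : (2 * η + η * C₃ / (π * a)) * L = δ₂ / 4 * L := by rw [hηbd]
  have h5 : δ₂ * L ≤ K + δ₂ / 4 * L + δ₂ / 8 * L := by
    rw [hK]
    linarith
  have h6 : 2 * |K| + δ₂ ≤ L * δ₂ := by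
    have h7 : (2 * |K| / δ₂ + 1) * δ₂ ≤ L * δ₂ := mul_le_mul_of_nonneg_right hTL hδ₂0.le
    have h8 : (2 * |K| / δ₂ + 1) * δ₂ = 2 * |K| + δ₂ := by field_simp
    linarith
  have h7 := le_abs_self K
  have h8 : 0 ≤ |K| := abs_nonneg K
  nlinarith

end Pool.Agent.V7H52.GM
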