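import Pool.Agent.V7H52.GM.F
import Pool.Agent.V7H88.BS.J

/-!
The local law for the geometric mean.
-/

set_option autoImplicit false
set_option maxHeartbeats 4000000
open MeasureTheory Filter Topology Set Real

namespace Pool.Agent.V7H52.GM

open Pool.Agent.V7H88.BS H370 Pool.Agent.H983R4.LH

/-- the geometric mean `exp ∫ log |f (1/2 + it + z)| dρ(z)` (zero if the integral is `-∞`) -/
noncomputable def GMn (ρ : Measure ℂ) (f : ℂ → ℂ) (t : ℝ) : ℝ :=
  ⨅ n : ℕ, Real.exp (LM ρ f n t)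

lemma GMn_bdd (ρ : Measure ℂ) (f : ℂ → ℂ) (t : ℝ) :
    BddBelow (Set.range fun n : ℕ => Real.exp (LM ρ f n t)) :=
  ⟨0, by rintro _ ⟨n, rfl⟩; exact (Real.exp_pos _).le⟩

lemma GMn_le {ρ : Measure ℂ} {f : ℂ → ℂ} {t : ℝ} (n : ℕ) : GMn ρ f t ≤ Real.exp (LM ρ f n t) :=
  ciInf_le (GMn_bdd ρ f t) n

lemma le_GMn {ρ : Measure ℂ} {f : ℂ → ℂ} {t x : ℝ} (h : ∀ n : ℕ, x ≤ Real.exp (LM ρ f n t)) :
    x ≤ GMn ρ f t := le_ciInf h

lemma car_compact (R : ℝ) : IsCompact {z : ℂ | 0 ≤ z.re ∧ ‖z‖ ≤ R} := by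
  have h1 : {z : ℂ | 0 ≤ z.re ∧ ‖z‖ ≤ R} = Metric.closedBall (0:ℂ) R ∩ {z : ℂ | 0 ≤ z.re} := by
    ext z
    simp only [mem_ofPred_eq, mem_inter_iff, mem_closedBall_zero_iff]
    tauto
  rw [h1]
  exact (isCompact_closedBall (0:ℂ) R).inter_right (isClosed_le continuous_const Complex.continuous_re)

/-- functions continuous near the points `1/2 + it + z` -/
lemma trunc_int {ρ : Measure ℂ} [IsFiniteMeasure ρ] {R : ℝ} (hρ : Car ρ R) {f : ℂ → ℂ} {t : ℝ}
    (hf : ∀ z : ℂ, 0 ≤ z.re → ‖z‖ ≤ R → ContinuousAt f (1 / 2 + t * Complex.I + z)) {M : ℝ} (hM : 0 ≤ M) :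
    Integrable (fun z : ℂ => Real.log (max ‖f (1 / 2 + t * Complex.I + z)‖ (Real.exp (-M)))) ρ := by
  have hc : ContinuousOn (fun z : ℂ => f (1 / 2 + t * Complex.I + z)) {z : ℂ | 0 ≤ z.re ∧ ‖z‖ ≤ R} := by
    intro z hz
    have h2 : ContinuousAt (fun z : ℂ => 1 / 2 + (t : ℂ) * Complex.I + z) z := by fun_prop
    exact (ContinuousAt.comp (f := fun z : ℂ => 1 / 2 + (t : ℂ) * Complex.I + z) (hf z hz.1 hz.2)
      h2).continuousWithinAt
  have hK := car_compact R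
  obtain ⟨C, hC⟩ := hK.exists_bound_of_continuousOn hc
  have hres : ρ.restrict {z : ℂ | 0 ≤ z.re ∧ ‖z‖ ≤ R} = ρ := Measure.restrict_eq_self_of_ae_mem hρ
  refine Integrable.mono' (integrable_const (M + log⁺ C)) ?_ ?_
  · rw [← hres]
    exact ((cont_trunc M).comp_continuousOn hc).aestronglyMeasurable hK.measurableSet
  · filter_upwards [hρ] with z hz
    rw [Real.norm_eq_abs]
    exact trunc_abs hM (norm_nonneg _) (posLog_le_posLog (norm_nonneg _) (hC z hz))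

lemma PD_an {P : Polynomial ℂ} {s : ℂ} (hs : s ≠ 1) : AnalyticAt ℂ (PD P riemannZeta) s := by
  apply PD_analytic
  have hd : DifferentiableOn ℂ riemannZeta ({1}ᶜ : Set ℂ) := fun z hz =>
    (differentiableAt_riemannZeta hz).differentiableWithinAt
  exact hd.analyticAt (isOpen_compl_singleton.mem_nhds hs)

lemma ne_one_shift {t R : ℝ} (ht : R < t) {z : ℂ} (hz : ‖z‖ ≤ R) : 1 / 2 + (t : ℂ) * Complex.I + z ≠ 1 := by
  intro h
  have h1 := congrArg Complex.im h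
  rw [im_shift, Complex.one_im] at h1
  have h2 := (neg_abs_le z.im)
  have h3 := (Complex.abs_im_le_norm z).trans hz
  linarith

lemma zg_cont {P : Polynomial ℂ} {a : ℂ} {B σ₀ R η T : ℝ} {g : ℂ → ℂ} (hg : Mul B σ₀ R η T g) {t : ℝ} (ht : R < t)
    (z : ℂ) (h0 : 0 ≤ z.re) (hz : ‖z‖ ≤ R) :
    ContinuousAt (fun s => (PD P riemannZeta s - a) * g s) (1 / 2 + t * Complex.I + z) := by
  have h1 := (PD_an (P := P) (ne_one_shift ht hz)).continuousAt
  have h2 := (hg.an (1 / 2 + t * Complex.I + z) (by rw [re_shift]; linarith)).continuousAt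
  exact (h1.sub continuousAt_const).mul h2

/-- **the local law for the geometric mean** -/
theorem local_GM (P : Polynomial ℂ) (hP : P ≠ 0) (a₀ : ℂ) {ρ : Measure ℂ} [IsProbabilityMeasure ρ] {R : ℝ}
    (hR : 0 ≤ R) (hρ : Car ρ R) (hδ : ∀ δ : ℝ, 0 < δ → 0 < ρ {z : ℂ | z.re < δ}) {κ B : ℝ} (σ₀ : ℝ)
    (hκ : 0 < κ) (hB : 0 ≤ B) :
    ∃ η H : ℝ, 0 < η ∧ 0 < H ∧ ∀ᶠ T : ℝ in atTop, T ^ κ ≤ ‖riemannZeta ⟨1 / 2, T⟩‖ →
      ∀ g : ℂ → ℂ, Mul B σ₀ R η T g →
        ENNReal.ofReal η ≤ volume {t : ℝ | |t - T| ≤ H ∧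
          T ^ η ≤ GMn ρ (fun s => (PD P riemannZeta s - a₀) * g s) t} := by
  obtain ⟨η, H, hη, hH, hev⟩ := local_law P hP a₀ hR hρ hδ σ₀ hκ hB
  obtain ⟨A₀, k, hA₀, hdat⟩ := Ph_dat P a₀
  refine ⟨η, H, hη, hH, ?_⟩
  filter_upwards [hev, eventually_ge_atTop (H + R + 1)] with T h1 hT hbig g hg
  have hT1 : 1 ≤ T := by linarith
  have hT0 : 0 < T := by linarith
  have h2 := h1 hbig g hg
  have Hd := hdat B σ₀ R η T g hB hT1 hg
  set E : ℕ → Set ℝ := fun n => {t : ℝ | |t - T| ≤ H ∧ η * Real.log T ≤ LM ρ (Ph P a₀ g) n t} with hE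
  have hcl : ∀ n, IsClosed (E n) := by
    intro n
    have c1 : IsClosed {t : ℝ | |t - T| ≤ H} := isClosed_le (by fun_prop) continuous_const
    have c2 : IsClosed {t : ℝ | η * Real.log T ≤ LM ρ (Ph P a₀ g) n t} :=
      isClosed_le continuous_const (Hd.LM_cont hρ (Nat.cast_nonneg n))
    exact c1.inter c2
  have hanti : Antitone E := by
    intro n m hnm t ht
    refine ⟨ht.1, ht.2.trans ?_⟩
    refine integral_mono (Hd.integrable hρ (Nat.cast_nonneg m) t) (Hd.integrable hρ (Nat.cast_nonneg n) t) ?_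
    intro z
    exact trunc_anti (by exact_mod_cast hnm)
  have hfin : volume (E 0) ≠ ⊤ := by
    have : E 0 ⊆ Metric.closedBall T H := by
      intro t ht
      rw [Metric.mem_closedBall, Real.dist_eq]
      exact ht.1
    exact ((measure_mono this).trans_lt (isCompact_closedBall T H).measure_lt_top).ne
  have hlim := tendsto_measure_iInter_atTop (μ := volume) (s := E)
    (fun n => (hcl n).measurableSet.nullMeasurableSet) hanti ⟨0, hfin⟩
  have h3 : ENNReal.ofReal η ≤ volume (⋂ n, E n) := by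
    refine ge_of_tendsto hlim (Eventually.of_forall fun n => ?_)
    exact h2 n (Nat.cast_nonneg n)
  refine h3.trans (measure_mono ?_)
  intro t ht
  rw [mem_iInter] at ht
  refine ⟨(ht 0).1, le_GMn fun n => ?_⟩
  have htR : R < t := by
    have := abs_le.1 (ht 0).1
    linarith
  rw [Real.rpow_def_of_pos hT0]
  apply Real.exp_le_exp.2
  rw [mul_comm]
  refine (ht n).2.trans ?_
  refine integral_mono_ae (Hd.integrable hρ (Nat.cast_nonneg n) t)
    (trunc_int hρ (zg_cont hg htR) (Nat.cast_nonneg n)) ?_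
  filter_upwards [hρ] with z hz
  apply trunc_mono
  exact Ph_le P a₀ g (by rw [re_shift]; linarith [hz.1]) (ne_one_shift htR hz.2)

end Pool.Agent.V7H52.GM
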