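import Pool.Agent.V7H52.GM.G

/-!
Criteria for the Lindelöf hypothesis.
-/

set_option autoImplicit false
set_option maxHeartbeats 4000000
open MeasureTheory Filter Topology Set Real

namespace Pool.Agent.V7H52.GM

open Pool.Agent.V7H88.BS H370 Pool.Agent.H983R4.LH

/-- the Lindelöf hypothesis and the values of `P(d/ds) ζ - a` to the right of the critical line -/
lemma PD_small (P : Polynomial ℂ) (a : ℂ) (h : Pool.Agent.TH804.MS.Exponent 0) {ε R : ℝ} (hε : 0 < ε)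
    (hR : 0 ≤ R) : ∀ᶠ T : ℝ in atTop, ∀ s : ℂ, 1 / 2 ≤ s.re → |s.im - T| ≤ R →
      ‖PD P riemannZeta s - a‖ ≤ T ^ ε := by
  set κ : ℝ := min (ε / 8) 1 with hκ
  have hκ0 : 0 < κ := lt_min (by positivity) one_pos
  have hκ1 : κ ≤ 1 := min_le_right _ _
  have hκε : κ ≤ ε / 8 := min_le_left _ _
  set r₀ : ℝ := min (ε / 8) (1 / 2) with hr₀
  have hr0 : 0 < r₀ := lt_min (by positivity) (by norm_num)
  have hr1 : r₀ ≤ 1 / 2 := min_le_right _ _
  have hrε : r₀ ≤ ε / 8 := min_le_left _ _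
  obtain ⟨H, T₁, hH, hT₁, hsm⟩ := right_small (κ := κ) (V := R + 1) hκ0 hκ1 (by linarith)
  obtain ⟨K, hK, hrefl⟩ := Pool.Agent.TH804.MS.refl
  have hH0 : 0 < H := by linarith
  filter_upwards [LH_small h hκ0 hH0, eventually_ge_atTop T₁, eventually_ge_atTop (R + 3),
    ev_rpow (2 * (CP P r₀ * (2 * K))) (p := ε / 2) (by positivity), ev_rpow (2 * ‖a‖) hε]
    with T h1 h2 h3 h4 h5 s hs hsT
  have hT0 : 0 < T := by linarith
  have hT1 : 1 ≤ T := by linarith
  have hz := hsm T h2 h1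
  have hb : ∀ w ∈ Metric.closedBall s r₀, ‖riemannZeta w‖ ≤ 2 * K * T ^ (ε / 2) := by
    intro w hw
    obtain ⟨h6, h7⟩ := ball_coord hw
    have h6' := abs_le.1 h6
    have h7' := abs_le.1 h7
    have h8 := abs_le.1 hsT
    have h9 : 0 ≤ T ^ (ε / 2) := by positivity
    by_cases hw2 : 1 / 2 ≤ w.re
    · refine (hz w hw2 (by rw [abs_le]; constructor <;> linarith)).trans ?_
      have h10 : T ^ (2 * κ) ≤ T ^ (ε / 2) := Real.rpow_le_rpow_of_exponent_le hT1 (by linarith)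
      nlinarith
    · push Not at hw2
      have h10 := hrefl (1 / 2 - w.re) w.im (by linarith) (by linarith) (by linarith)
      have e1 : (⟨1 / 2 - (1 / 2 - w.re), w.im⟩ : ℂ) = w := by
        apply Complex.ext <;> simp
      rw [e1] at h10
      have h11 := hz ⟨1 / 2 + (1 / 2 - w.re), w.im⟩ (by show 1 / 2 ≤ 1 / 2 + (1 / 2 - w.re); linarith)
        (by show |w.im - T| ≤ R + 1; rw [abs_le]; constructor <;> linarith)
      have h12 : w.im ^ (1 / 2 - w.re) ≤ 2 * T ^ (ε / 8) := by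
        have h13 : w.im ^ (1 / 2 - w.re) ≤ (2 * T) ^ (1 / 2 - w.re) :=
          Real.rpow_le_rpow (by linarith) (by linarith) (by linarith)
        have h14 : (2 * T) ^ (1 / 2 - w.re) = 2 ^ (1 / 2 - w.re) * T ^ (1 / 2 - w.re) :=
          Real.mul_rpow (by norm_num) hT0.le
        have h15 : (2:ℝ) ^ (1 / 2 - w.re) ≤ 2 ^ (1:ℝ) :=
          Real.rpow_le_rpow_of_exponent_le (by norm_num) (by linarith)
        have h16 : T ^ (1 / 2 - w.re) ≤ T ^ (ε / 8) := Real.rpow_le_rpow_of_exponent_le hT1 (by linarith)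
        rw [Real.rpow_one] at h15
        rw [h14] at h13
        refine h13.trans ?_
        gcongr
      calc ‖riemannZeta w‖ ≤ K * w.im ^ (1 / 2 - w.re) * ‖riemannZeta ⟨1 / 2 + (1 / 2 - w.re), w.im⟩‖ := h10
        _ ≤ K * (2 * T ^ (ε / 8)) * T ^ (2 * κ) := by
            have : 0 ≤ w.im ^ (1 / 2 - w.re) := Real.rpow_nonneg (by linarith) _
            gcongr
        _ ≤ K * (2 * T ^ (ε / 8)) * T ^ (3 * ε / 8) := by
            have : T ^ (2 * κ) ≤ T ^ (3 * ε / 8) := Real.rpow_le_rpow_of_exponent_le hT1 (by linarith)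
            gcongr
        _ = 2 * K * (T ^ (ε / 8) * T ^ (3 * ε / 8)) := by ring
        _ = 2 * K * T ^ (ε / 2) := by rw [← Real.rpow_add hT0]; congr 2; ring
  have h6 := PD_bound P (f := riemannZeta) (s := s) hr0 (fun w hw => by
    have h7' := abs_le.1 (ball_coord hw).2
    have h8 := abs_le.1 hsT
    exact zeta_diff (by linarith)) hb
  have h7 : ‖PD P riemannZeta s - a‖ ≤ CP P r₀ * (2 * K * T ^ (ε / 2)) + ‖a‖ :=
    (norm_sub_le _ _).trans (by linarith)
  have h8 : T ^ ε = T ^ (ε / 2) * T ^ (ε / 2) := by rw [← Real.rpow_add hT0]; congr 1; ring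
  have h9 : 0 < T ^ (ε / 2) := by positivity
  have h10 : 2 * (CP P r₀ * (2 * K)) * T ^ (ε / 2) ≤ T ^ (ε / 2) * T ^ (ε / 2) :=
    mul_le_mul_of_nonneg_right h4 h9.le
  rw [← h8] at h10
  linarith

lemma Mul.one {B σ₀ R η T : ℝ} (hB : 0 ≤ B) (hη : 0 ≤ η) (hT : 1 ≤ T) : Mul B σ₀ R η T (fun _ => 1) := by
  refine ⟨fun s _ => analyticAt_const, fun s _ => ?_, fun s _ _ => ?_⟩
  · rw [norm_one]
    exact Real.one_le_rpow (by linarith [norm_nonneg s]) hB
  · rw [norm_one]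
    exact Real.rpow_le_one_of_one_le_of_nonpos hT (by linarith)

lemma Mul.mono {B σ₀ R η η' T : ℝ} {g : ℂ → ℂ} (h : Mul B σ₀ R η T g) (hη : η ≤ η') (hT : 1 ≤ T) :
    Mul B σ₀ R η' T g :=
  ⟨h.an, h.up, fun s h1 h2 => (Real.rpow_le_rpow_of_exponent_le hT (by linarith)).trans (h.low s h1 h2)⟩

variable {ρ : Measure ℂ} [IsProbabilityMeasure ρ] {R : ℝ}

/-- the Lindelöf hypothesis implies that the geometric means are small -/
lemma GM_small (P : Polynomial ℂ) (a : ℂ) (hR : 0 ≤ R) (hρ : Car ρ R)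
    (h : Pool.Agent.TH804.MS.Exponent 0) {ε H : ℝ} (hε : 0 < ε) (hH : 0 ≤ H) :
    ∀ᶠ T : ℝ in atTop, ∀ t : ℝ, |t - T| ≤ H → GMn ρ (fun s => (PD P riemannZeta s - a) * 1) t ≤ T ^ ε := by
  filter_upwards [PD_small P a h (R := H + R) hε (by linarith), eventually_ge_atTop (H + R + 2)]
    with T h1 h2 t ht
  have hT1 : 1 ≤ T := by linarith
  have hT0 : 0 < T := by linarith
  have ht' := abs_le.1 ht
  refine (GMn_le 0).trans ?_
  rw [Real.rpow_def_of_pos hT0]
  apply Real.exp_le_exp.2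
  have hb : ∀ z : ℂ, 0 ≤ z.re → ‖z‖ ≤ R →
      Real.log (max ‖(PD P riemannZeta (1 / 2 + t * Complex.I + z) - a) * 1‖ (Real.exp (-(0:ℕ)))) ≤
        Real.log T * ε := by
    intro z hz hzR
    have h3 := h1 (1 / 2 + t * Complex.I + z) (by rw [re_shift]; linarith) (by
      rw [im_shift]
      have h4 := (Complex.abs_im_le_norm z).trans hzR
      have h5 := abs_le.1 h4
      rw [abs_le]; constructor <;> linarith)
    rw [mul_one]
    have h6 : Real.log T * ε = Real.log (T ^ ε) := by rw [Real.log_rpow hT0]; ring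
    rw [h6]
    apply Real.log_le_log (lt_max_of_lt_right (Real.exp_pos _))
    apply max_le h3
    simp only [Nat.cast_zero, neg_zero, Real.exp_zero]
    exact Real.one_le_rpow hT1 hε.le
  have hint := trunc_int hρ (f := fun s => (PD P riemannZeta s - a) * 1) (t := t) (M := (0:ℕ)) (fun z h0 hz => by
    have h1 := (PD_an (P := P) (ne_one_shift (show R < t by linarith) hz)).continuousAt
    exact (h1.sub continuousAt_const).mul continuousAt_const) (by simp)
  have h4 : LM ρ (fun s => (PD P riemannZeta s - a) * 1) (0:ℕ) t ≤ ∫ _ : ℂ, Real.log T * ε ∂ρ := by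
    refine integral_mono_ae hint (integrable_const _) ?_
    filter_upwards [hρ] with z hz
    exact hb z hz.1 hz.2
  simpa using h4

/-- **the Lindelöf hypothesis and multipliers** -/
theorem crit_mul (P : Polynomial ℂ) (hP : P ≠ 0) (a : ℂ) (hR : 0 ≤ R) (hρ : Car ρ R)
    (hδ : ∀ δ : ℝ, 0 < δ → 0 < ρ {z : ℂ | z.re < δ}) {B : ℝ} (σ₀ : ℝ) (hB : 0 ≤ B) :
    Pool.Agent.TH804.MS.Exponent 0 ↔ ∀ ε H : ℝ, 0 < ε → 0 < H → ∀ᶠ T : ℝ in atTop, ∃ g : ℂ → ℂ,
      Mul B σ₀ R ε T g ∧ volume {t : ℝ | |t - T| ≤ H ∧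
        T ^ ε < GMn ρ (fun s => (PD P riemannZeta s - a) * g s) t} ≤ ENNReal.ofReal ε := by
  constructor
  · intro h ε H hε hH
    filter_upwards [GM_small P a hR hρ h hε hH.le, eventually_ge_atTop 1] with T h1 hT
    refine ⟨fun _ => 1, Mul.one hB hε.le hT, ?_⟩
    have : {t : ℝ | |t - T| ≤ H ∧ T ^ ε < GMn ρ (fun s => (PD P riemannZeta s - a) * 1) t} = ∅ := by
      rw [eq_empty_iff_forall_notMem]
      rintro t ⟨h2, h3⟩
      exact absurd (h1 t h2) (not_le.2 h3)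
    rw [this, measure_empty]
    exact bot_le
  · intro h
    apply Pool.Agent.TH804.MS.exponent_of_large le_rfl
    intro κ hκ
    obtain ⟨η, H, hη, hH, hev⟩ := local_GM P hP a hR hρ hδ σ₀ hκ hB
    obtain ⟨T₁, hT₁⟩ := eventually_atTop.1 ((hev.and (h (η / 2) H (by positivity) hH)).and
      (eventually_gt_atTop 1))
    refine ⟨T₁, fun T hT => ?_⟩
    obtain ⟨⟨h1, g, hg, h2⟩, h3⟩ := hT₁ T hT
    rw [zero_add]
    by_contra hcon
    push Not at hcon
    rw [← Z_eq] at hcon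
    have h4 := h1 hcon.le g (hg.mono (by linarith) h3.le)
    have h5 : {t : ℝ | |t - T| ≤ H ∧ T ^ η ≤ GMn ρ (fun s => (PD P riemannZeta s - a) * g s) t} ⊆
        {t : ℝ | |t - T| ≤ H ∧ T ^ (η / 2) < GMn ρ (fun s => (PD P riemannZeta s - a) * g s) t} := by
      rintro t ⟨h6, h7⟩
      refine ⟨h6, lt_of_lt_of_le ?_ h7⟩
      exact Real.rpow_lt_rpow_of_exponent_lt h3 (by linarith)
    have h6 := h4.trans ((measure_mono h5).trans h2)
    rw [ENNReal.ofReal_le_ofReal_iff (by positivity)] at h6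
    linarith

/-- **the Lindelöf hypothesis and geometric means** -/
theorem crit_meas (P : Polynomial ℂ) (hP : P ≠ 0) (a : ℂ) (hR : 0 ≤ R) (hρ : Car ρ R)
    (hδ : ∀ δ : ℝ, 0 < δ → 0 < ρ {z : ℂ | z.re < δ})
    (h : ∀ ε : ℝ, 0 < ε → Tendsto (fun T : ℝ => volume {t : ℝ | T ≤ t ∧ t ≤ T + 1 ∧
      t ^ ε < GMn ρ (fun s => (PD P riemannZeta s - a) * 1) t}) atTop (𝓝 0)) :
    Pool.Agent.TH804.MS.Exponent 0 := by
  rw [crit_mul P hP a hR hρ hδ (B := 0) 0 le_rfl]
  intro ε H hε hH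
  set N : ℕ := ⌊2 * H⌋₊ + 1 with hN
  have hN0 : (0:ℝ) < N := by rw [hN]; positivity
  have h1 := (h (ε / 2) (by positivity)).eventually (gt_mem_nhds
    (show (0 : ENNReal) < ENNReal.ofReal (ε / N) from ENNReal.ofReal_pos.2 (by positivity)))
  obtain ⟨T₁, hT₁⟩ := eventually_atTop.1 h1
  filter_upwards [eventually_ge_atTop (T₁ + H), eventually_ge_atTop (H + 2)] with T h2 h3
  have hT1 : 1 ≤ T := by linarith
  have hT0 : 0 < T := by linarith
  refine ⟨fun _ => 1, Mul.one le_rfl hε.le hT1, ?_⟩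
  have hsub : {t : ℝ | |t - T| ≤ H ∧ T ^ ε < GMn ρ (fun s => (PD P riemannZeta s - a) * 1) t} ⊆
      ⋃ k ∈ Finset.range N, {t : ℝ | T - H + k ≤ t ∧ t ≤ T - H + k + 1 ∧
        t ^ (ε / 2) < GMn ρ (fun s => (PD P riemannZeta s - a) * 1) t} := by
    rintro t ⟨h4, h5⟩
    have h4' := abs_le.1 h4
    have h6 : 0 ≤ t - (T - H) := by linarith
    simp only [mem_iUnion, Finset.mem_range]
    refine ⟨⌊t - (T - H)⌋₊, ?_, ?_, ?_, ?_⟩
    · rw [hN, Nat.lt_succ_iff]
      apply Nat.floor_le_floor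
      linarith
    · have := Nat.floor_le h6
      linarith
    · have := Nat.lt_floor_add_one (t - (T - H))
      linarith
    · refine lt_of_le_of_lt ?_ h5
      have h7 : t ≤ T ^ (2:ℝ) := by
        have : T ^ (2:ℝ) = T * T := by
          rw [show (2:ℝ) = ((2:ℕ):ℝ) by norm_num, Real.rpow_natCast]; ring
        rw [this]
        nlinarith
      calc t ^ (ε / 2) ≤ (T ^ (2:ℝ)) ^ (ε / 2) := Real.rpow_le_rpow (by linarith) h7 (by positivity)
        _ = T ^ ε := by rw [← Real.rpow_mul hT0.le]; congr 1; ring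
  refine (measure_mono hsub).trans ((measure_biUnion_finset_le _ _).trans ?_)
  have h4 : ∀ k ∈ Finset.range N, volume {t : ℝ | T - H + k ≤ t ∧ t ≤ T - H + k + 1 ∧
        t ^ (ε / 2) < GMn ρ (fun s => (PD P riemannZeta s - a) * 1) t} ≤ ENNReal.ofReal (ε / N) := by
    intro k _
    have hk0 : (0:ℝ) ≤ k := Nat.cast_nonneg k
    exact (hT₁ (T - H + k) (by linarith)).le
  refine (Finset.sum_le_sum h4).trans ?_
  rw [Finset.sum_const, Finset.card_range, nsmul_eq_mul, ← ENNReal.ofReal_natCast,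
    ← ENNReal.ofReal_mul (by positivity)]
  apply ENNReal.ofReal_le_ofReal
  rw [mul_div_cancel₀ _ hN0.ne']

end Pool.Agent.V7H52.GM
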