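import Pool.Agent.V7H52.GM.H

/-!
The criterion for geometric means over vertical intervals.
-/

set_option autoImplicit false
set_option maxHeartbeats 4000000
open MeasureTheory Filter Topology Set Real

namespace Pool.Agent.V7H52.GM

open Pool.Agent.V7H88.BS H370 Pool.Agent.H983R4.LH

/-- `P(d/ds) ζ - a` -/
noncomputable def ff (P : Polynomial ℂ) (a : ℂ) (s : ℂ) : ℂ := PD P riemannZeta s - a

lemma ff_an {P : Polynomial ℂ} {a : ℂ} {s : ℂ} (hs : s ≠ 1) : AnalyticAt ℂ (ff P a) s :=
  (PD_an hs).sub analyticAt_const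

/-- only finitely many zeros on an interval -/
lemma zeros_finite (P : Polynomial ℂ) (hP : P ≠ 0) (a : ℂ) {x y : ℝ} (hx : 1 ≤ x) (hxy : x ≤ y) :
    {u : ℝ | u ∈ Set.Icc x y ∧ ff P a (1 / 2 + u * Complex.I) = 0}.Finite := by
  obtain ⟨σ₀, hfar⟩ := far P hP a
  set X : ℝ := max σ₀ 1 with hX
  obtain ⟨m, hm, hfar'⟩ := hfar X
  set K : Set ℂ := (Set.Icc (1 / 2) X) ×ℂ (Set.Icc x y) with hK
  have hKc : IsCompact K := isCompact_Icc.reProdIm isCompact_Icc
  have hKp : IsPreconnected K := by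
    have h1 : Convex ℝ (Complex.reLm ⁻¹' (Set.Icc (1 / 2) X)) := (convex_Icc _ _).linear_preimage _
    have h2 : Convex ℝ (Complex.imLm ⁻¹' (Set.Icc x y)) := (convex_Icc _ _).linear_preimage _
    exact (h1.inter h2).isPreconnected
  have hKm : ∀ s : ℂ, s ∈ K ↔ s.re ∈ Set.Icc (1 / 2) X ∧ s.im ∈ Set.Icc x y := fun s => Iff.rfl
  have hX1 : 1 ≤ X := le_max_right _ _
  have han : AnalyticOnNhd ℂ (ff P a) K := by
    intro s hs
    apply ff_an
    rintro rfl
    have := (hKm 1).1 hs
    rw [Complex.one_im] at this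
    linarith [this.2.1]
  have hcK : (⟨X, x⟩ : ℂ) ∈ K := (hKm _).2 ⟨⟨by show (1:ℝ) / 2 ≤ X; linarith, le_rfl⟩, ⟨le_rfl, hxy⟩⟩
  have hc : ff P a ⟨X, x⟩ ≠ 0 := by
    have := hfar' ⟨X, x⟩ (le_max_left _ _) le_rfl
    exact norm_pos_iff.1 (lt_of_lt_of_le hm this)
  have hfin := (MeromorphicOn.divisor (ff P a) K).finiteSupport hKc
  have hinj : Set.InjOn (fun u : ℝ => (1 / 2 + u * Complex.I : ℂ))
      {u : ℝ | u ∈ Set.Icc x y ∧ ff P a (1 / 2 + u * Complex.I) = 0} := by
    intro u _ v _ huv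
    have := congrArg Complex.im huv
    simpa using this
  refine Set.Finite.of_finite_image (hfin.subset ?_) hinj
  rintro _ ⟨u, ⟨hu1, hu2⟩, rfl⟩
  have hz : (1 / 2 + u * Complex.I : ℂ) ∈ K := by
    rw [hKm]
    simp only [Complex.add_re, Complex.mul_re, Complex.ofReal_re, Complex.I_re, mul_zero, Complex.ofReal_im,
      Complex.I_im, mul_one, sub_self, add_zero, Complex.add_im, Complex.mul_im]
    norm_num
    exact ⟨by linarith, hu1⟩
  rw [Function.mem_support, H370.Loc.divisor_eq hKp han hcK hc hz]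
  have := (H370.Loc.mult_pos hKp han hcK hc hz).2 hu2
  exact_mod_cast this.ne'

lemma line_an (P : Polynomial ℂ) (a : ℂ) (u : ℝ) :
    AnalyticAt ℝ (fun u : ℝ => ff P a (1 / 2 + u * Complex.I)) u := by
  have hs : (1 / 2 + (u : ℂ) * Complex.I) ≠ 1 := by
    intro h
    have := congrArg Complex.re h
    norm_num at this
  have h1 : AnalyticAt ℝ (ff P a) (1 / 2 + (u : ℂ) * Complex.I) := (ff_an hs).restrictScalars
  have h2 : AnalyticAt ℝ (fun u : ℝ => (u : ℂ)) u := Complex.ofRealCLM.analyticAt u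
  have h3 : AnalyticAt ℝ (fun u : ℝ => (1 / 2 + (u : ℂ) * Complex.I : ℂ)) u :=
    analyticAt_const.add (h2.mul analyticAt_const)
  exact AnalyticAt.fun_comp (f := fun u : ℝ => (1 / 2 + (u : ℂ) * Complex.I : ℂ)) h1 h3

lemma line_int (P : Polynomial ℂ) (a : ℂ) (x y : ℝ) :
    IntervalIntegrable (fun u : ℝ => Real.log ‖ff P a (1 / 2 + u * Complex.I)‖) volume x y :=
  MeromorphicOn.intervalIntegrable_log_norm fun u _ => (line_an P a u).meromorphicAt

lemma trunc_abs_le {n : ℝ} (hn : 0 ≤ n) {y : ℝ} (hy : 0 < y) :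
    |Real.log (max y (Real.exp (-n)))| ≤ |Real.log y| := by
  rcases le_total (Real.exp (-n)) y with h | h
  · rw [max_eq_left h]
  · rw [max_eq_right h, Real.log_exp, abs_neg, abs_of_nonneg hn]
    have h1 := Real.log_le_log hy h
    rw [Real.log_exp] at h1
    have := neg_le_abs (Real.log y)
    linarith

/-- truncated integrals converge -/
lemma trunc_tendsto (P : Polynomial ℂ) (hP : P ≠ 0) (a : ℂ) {x y : ℝ} (hx : 1 ≤ x) (hxy : x ≤ y) :
    Tendsto (fun n : ℕ => ∫ u in x..y, Real.log (max ‖ff P a (1 / 2 + u * Complex.I)‖ (Real.exp (-(n : ℝ)))))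
      atTop (𝓝 (∫ u in x..y, Real.log ‖ff P a (1 / 2 + u * Complex.I)‖)) := by
  have hne : ∀ᵐ u : ℝ ∂volume, u ∈ Set.uIoc x y → 0 < ‖ff P a (1 / 2 + u * Complex.I)‖ := by
    have h0 := (zeros_finite P hP a hx hxy).measure_zero volume
    rw [measure_eq_zero_iff_ae_notMem] at h0
    filter_upwards [h0] with u hu hux
    rw [Set.uIoc_of_le hxy] at hux
    rw [norm_pos_iff]
    intro h
    exact hu ⟨⟨hux.1.le, hux.2⟩, h⟩
  refine intervalIntegral.tendsto_integral_filter_of_dominated_convergence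
    (fun u => |Real.log ‖ff P a (1 / 2 + u * Complex.I)‖|) ?_ ?_ ((line_int P a x y).abs) ?_
  · refine Eventually.of_forall fun n => ?_
    have hc : Continuous fun u : ℝ => ff P a (1 / 2 + u * Complex.I) := by
      rw [continuous_iff_continuousAt]
      intro u
      exact (line_an P a u).continuousAt
    exact ((cont_trunc (n : ℝ)).comp hc).aestronglyMeasurable
  · refine Eventually.of_forall fun n => ?_
    filter_upwards [hne] with u hu hux
    rw [Real.norm_eq_abs]
    exact trunc_abs_le (Nat.cast_nonneg n) (hu hux)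
  · filter_upwards [hne] with u hu hux
    have h1 := hu hux
    apply tendsto_const_nhds.congr'
    have h2 : Tendsto (fun n : ℕ => Real.exp (-(n : ℝ))) atTop (𝓝 0) :=
      Real.tendsto_exp_neg_atTop_nhds_zero.comp tendsto_natCast_atTop_atTop
    filter_upwards [h2.eventually (gt_mem_nhds h1)] with n hn
    rw [max_eq_left hn.le]

/-- the uniform measure on `i[0,h]` -/
noncomputable def ρh (h : ℝ) : Measure ℂ :=
  ENNReal.ofReal h⁻¹ • ((volume : Measure ℝ).restrict (Set.Ioc 0 h)).map (fun u : ℝ => (u : ℂ) * Complex.I)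

lemma mI : Measurable (fun u : ℝ => (u : ℂ) * Complex.I) := by fun_prop

lemma ρh_prob {h : ℝ} (hh : 0 < h) : IsProbabilityMeasure (ρh h) := by
  constructor
  unfold ρh
  rw [Measure.smul_apply, Measure.map_apply mI MeasurableSet.univ, preimage_univ, Measure.restrict_apply_univ,
    Real.volume_Ioc, sub_zero, smul_eq_mul, ← ENNReal.ofReal_mul (by positivity), inv_mul_cancel₀ hh.ne',
    ENNReal.ofReal_one]

lemma ρh_ae {h : ℝ} {p : ℂ → Prop} (hp : MeasurableSet {z | p z}) (h1 : ∀ u : ℝ, 0 < u → u ≤ h → p (u * Complex.I)) :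
    ∀ᵐ z ∂(ρh h), p z := by
  unfold ρh
  apply Measure.ae_smul_measure
  rw [ae_map_iff mI.aemeasurable hp, ae_restrict_iff' measurableSet_Ioc]
  exact Eventually.of_forall fun u hu => h1 u hu.1 hu.2

lemma ρh_car {h : ℝ} : Car (ρh h) h := by
  refine ρh_ae (car_compact h).measurableSet fun u h0 hu => ?_
  constructor
  · simp
  · rw [norm_mul, Complex.norm_I, mul_one, Complex.norm_real, Real.norm_eq_abs, abs_of_pos h0]
    exact hu

lemma ρh_pos {h : ℝ} (hh : 0 < h) (δ : ℝ) (hδ : 0 < δ) : 0 < ρh h {z : ℂ | z.re < δ} := by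
  have := ρh_prob hh
  have hm : MeasurableSet {z : ℂ | z.re < δ} :=
    (isOpen_lt Complex.continuous_re continuous_const).measurableSet
  have h1 : ∀ᵐ z ∂(ρh h), z.re < δ := ρh_ae hm fun u _ _ => by simpa using hδ
  have h2 : ρh h {z : ℂ | z.re < δ} = 1 := (mem_ae_iff_prob_eq_one hm).1 h1
  rw [h2]
  exact one_pos

lemma ρh_LM {h : ℝ} (hh : 0 < h) (P : Polynomial ℂ) (a : ℂ) (M t : ℝ) :
    LM (ρh h) (fun s => (PD P riemannZeta s - a) * 1) M t =
      h⁻¹ * ∫ u in t..(t + h), Real.log (max ‖ff P a (1 / 2 + u * Complex.I)‖ (Real.exp (-M))) := by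
  unfold LM ρh
  rw [integral_smul_measure, ENNReal.toReal_ofReal (by positivity), smul_eq_mul]
  congr 1
  have hc : Continuous fun u : ℝ => ff P a (1 / 2 + u * Complex.I) := by
    rw [continuous_iff_continuousAt]
    intro u
    exact (line_an P a u).continuousAt
  have hemb : MeasurableEmbedding (fun u : ℝ => (u : ℂ) * Complex.I) := by
    refine Continuous.measurableEmbedding (by fun_prop) ?_
    intro u v huv
    have := congrArg Complex.im huv
    simpa using this
  rw [hemb.integral_map]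
  have e1 := intervalIntegral.integral_comp_add_left (a := 0) (b := h)
    (fun u : ℝ => Real.log (max ‖ff P a (1 / 2 + u * Complex.I)‖ (Real.exp (-M)))) t
  rw [add_zero] at e1
  rw [← e1, intervalIntegral.integral_of_le hh.le]
  refine integral_congr_ae (Eventually.of_forall fun u => ?_)
  show Real.log (max ‖(PD P riemannZeta (1 / 2 + t * Complex.I + u * Complex.I) - a) * 1‖ (Real.exp (-M))) =
    Real.log (max ‖ff P a (1 / 2 + ((t + u : ℝ) : ℂ) * Complex.I)‖ (Real.exp (-M)))
  have e2 : (1 / 2 + (t : ℂ) * Complex.I + u * Complex.I) = 1 / 2 + ((t + u : ℝ) : ℂ) * Complex.I := by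
    push_cast
    ring
  unfold ff
  rw [mul_one, e2]

/-- **geometric means over intervals** -/
theorem crit_interval (P : Polynomial ℂ) (hP : P ≠ 0) (a : ℂ) {h : ℝ} (hh : 0 < h) :
    Pool.Agent.TH804.MS.Exponent 0 ↔ ∀ ε : ℝ, 0 < ε → ∃ T₀ : ℝ, ∀ t : ℝ, T₀ ≤ t →
      ∫ u in t..(t + h), Real.log ‖ff P a (1 / 2 + u * Complex.I)‖ ≤ ε * Real.log t := by
  have := ρh_prob hh
  constructor
  · intro hL ε hε
    have hev := PD_small P a hL (ε := ε / h) (R := h) (by positivity) hh.le
    obtain ⟨T₁, hT₁⟩ := eventually_atTop.1 (hev.and (eventually_ge_atTop 1))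
    refine ⟨T₁, fun t ht => ?_⟩
    obtain ⟨h1, h2⟩ := hT₁ t ht
    have ht0 : 0 < t := by linarith
    have h3 : ∫ u in t..(t + h), Real.log ‖ff P a (1 / 2 + u * Complex.I)‖ ≤
        ∫ _ in t..(t + h), ε / h * Real.log t := by
      refine intervalIntegral.integral_mono_on (by linarith) (line_int P a t (t + h)) (by simp) ?_
      intro u hu
      have h4 := h1 (1 / 2 + u * Complex.I) (by simp) (by
        have : (1 / 2 + (u : ℂ) * Complex.I).im = u := by simp
        rw [this, abs_le]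
        constructor <;> linarith [hu.1, hu.2])
      have h5 : (0:ℝ) ≤ Real.log t := Real.log_nonneg h2
      by_cases h6 : ff P a (1 / 2 + u * Complex.I) = 0
      · rw [h6, norm_zero, Real.log_zero]
        positivity
      · have h7 := Real.log_le_log (norm_pos_iff.2 h6) h4
        rwa [Real.log_rpow ht0] at h7
    refine h3.trans (le_of_eq ?_)
    rw [intervalIntegral.integral_const, smul_eq_mul]
    field_simp
    ring
  · intro hI
    refine crit_meas P hP a hh.le ρh_car (fun δ hδ => ρh_pos hh δ hδ) fun ε hε => ?_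
    obtain ⟨T₀, hT₀⟩ := hI (ε * h) (by positivity)
    apply tendsto_const_nhds.congr'
    filter_upwards [eventually_ge_atTop T₀, eventually_ge_atTop 1] with T h1 h2
    symm
    have : {t : ℝ | T ≤ t ∧ t ≤ T + 1 ∧ t ^ ε < GMn (ρh h) (fun s => (PD P riemannZeta s - a) * 1) t} = ∅ := by
      rw [eq_empty_iff_forall_notMem]
      rintro t ⟨h3, h4, h5⟩
      have ht1 : 1 ≤ t := by linarith
      have ht0 : 0 < t := by linarith
      apply absurd h5
      rw [not_lt]
      have h6 := (trunc_tendsto P hP a ht1 (show t ≤ t + h by linarith)).const_mul h⁻¹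
      have h7 : Tendsto (fun n : ℕ => Real.exp (LM (ρh h) (fun s => (PD P riemannZeta s - a) * 1) n t)) atTop
          (𝓝 (Real.exp (h⁻¹ * ∫ u in t..(t + h), Real.log ‖ff P a (1 / 2 + u * Complex.I)‖))) := by
        refine (Real.continuous_exp.tendsto _).comp ?_
        refine h6.congr fun n => ?_
        rw [ρh_LM hh]
      have h8 : GMn (ρh h) (fun s => (PD P riemannZeta s - a) * 1) t ≤
          Real.exp (h⁻¹ * ∫ u in t..(t + h), Real.log ‖ff P a (1 / 2 + u * Complex.I)‖) :=
        ge_of_tendsto h7 (Eventually.of_forall fun n => GMn_le n)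
      refine h8.trans ?_
      rw [Real.rpow_def_of_pos ht0]
      apply Real.exp_le_exp.2
      have h9 := hT₀ t (by linarith)
      have h10 := mul_le_mul_of_nonneg_left h9 (inv_pos.2 hh).le
      refine h10.trans (le_of_eq ?_)
      field_simp
    rw [this, measure_empty]

end Pool.Agent.V7H52.GM
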